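import Mathlib

/-!
# Averaging over rotations by roots of unity
-/

open MeasureTheory Set

namespace Pool.Agent.Helper87.VS

noncomputable section

open scoped Real

theorem intervalIntegrable_of_bdd {H : ℝ → ℝ} (hH : Measurable H) (C : ℝ) (hC : ∀ θ, |H θ| ≤ C)
    (a b : ℝ) : IntervalIntegrable H volume a b :=
  (intervalIntegrable_const (c := C)).mono_fun' hH.aestronglyMeasurable
    (Filter.Eventually.of_forall fun θ => by
      simpa using hC θ)

theorem prod_rotations (m : ℕ) (hm : 1 ≤ m) (x y : ℂ) :
    ∏ k ∈ Finset.range m, (x - y * Complex.exp (2 * π * k / m * Complex.I)) = x ^ m - y ^ m := by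
  have hζ := Complex.isPrimitiveRoot_exp m (by omega)
  have h1 := X_pow_sub_C_eq_prod (R := ℂ) hζ (α := y) (a := y ^ m) (by omega) rfl
  have h2 := congrArg (Polynomial.eval x) h1
  simp only [Polynomial.eval_sub, Polynomial.eval_pow, Polynomial.eval_X, Polynomial.eval_C,
    Polynomial.eval_prod] at h2
  rw [h2]
  refine Finset.prod_congr rfl ?_
  intro k _
  rw [← Complex.exp_nat_mul, mul_comm y]
  congr 3
  ring

theorem continuous_log_circle {x : ℂ} {r : ℝ} (hr : 0 < r) (hx : r ≠ ‖x‖) (c : ℝ) :
    Continuous (fun θ : ℝ => Real.log ‖x - r * Complex.exp ((c * θ : ℝ) * Complex.I)‖) := by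
  refine Continuous.log (by fun_prop) ?_
  intro θ h
  rw [norm_eq_zero, sub_eq_zero] at h
  apply hx
  rw [h, norm_mul, Complex.norm_exp_ofReal_mul_I, mul_one, Complex.norm_real, Real.norm_eq_abs,
    abs_of_pos hr]

/-- averaging over the rotations by `m`-th roots of unity -/
theorem average_log (m : ℕ) (hm : 1 ≤ m) (x : ℂ) (r : ℝ) (hr : 0 < r) (hx : r ≠ ‖x‖)
    (H : ℝ → ℝ) (hH : Measurable H) (C : ℝ) (hC : ∀ θ, |H θ| ≤ C)
    (hper : Function.Periodic H (2 * π)) :
    ∫ θ in (-π)..π, H (m * θ) * Real.log ‖x - r * Complex.exp (θ * Complex.I)‖ =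
      (1 / m) * ∫ θ in (-π)..π,
        H θ * Real.log ‖x ^ m - (r ^ m : ℝ) * Complex.exp (θ * Complex.I)‖ := by
  have hm0 : (m:ℝ) ≠ 0 := by
    have : (1:ℝ) ≤ m := by exact_mod_cast hm
    linarith
  have hmC : (m:ℂ) ≠ 0 := by exact_mod_cast hm0
  have hg : Continuous (fun θ : ℝ => Real.log ‖x - r * Complex.exp (θ * Complex.I)‖) := by
    have := continuous_log_circle hr hx 1
    simpa using this
  have hHm : Measurable (fun θ : ℝ => H (m * θ)) := hH.comp (measurable_const_mul _)
  have hI : ∀ c : ℝ, IntervalIntegrable (fun θ : ℝ => H (m * θ) *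
      Real.log ‖x - r * Complex.exp ((θ + c : ℝ) * Complex.I)‖) volume (-π) π := by
    intro c
    refine (intervalIntegrable_of_bdd hHm C (fun θ => hC _) _ _).mul_continuousOn ?_
    exact (hg.comp (continuous_add_const c)).continuousOn
  -- step 1
  have s1 : ∀ k : ℕ, ∫ θ in (-π)..π, H (m * θ) *
      Real.log ‖x - r * Complex.exp ((θ + 2 * π * k / m : ℝ) * Complex.I)‖ =
      ∫ θ in (-π)..π, H (m * θ) * Real.log ‖x - r * Complex.exp (θ * Complex.I)‖ := by
    intro k
    have hP : Function.Periodic (fun θ : ℝ => H (m * θ) *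
        Real.log ‖x - r * Complex.exp (θ * Complex.I)‖) (2 * π) := by
      intro θ
      simp only
      have e1 : H (m * (θ + 2 * π)) = H (m * θ) := by
        have := hper.nat_mul m (m * θ)
        rw [← this]; ring_nf
      have e2 : Complex.exp ((θ + 2 * π : ℝ) * Complex.I) = Complex.exp (θ * Complex.I) := by
        push_cast
        rw [add_mul, Complex.exp_add, Complex.exp_two_pi_mul_I, mul_one]
      rw [e1, e2]
    have h1 : (fun θ : ℝ => H (m * θ) *
      Real.log ‖x - r * Complex.exp ((θ + 2 * π * k / m : ℝ) * Complex.I)‖) =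
      fun θ : ℝ => (fun θ : ℝ => H (m * θ) *
        Real.log ‖x - r * Complex.exp (θ * Complex.I)‖) (θ + 2 * π * k / m) := by
      funext θ
      simp only
      have e1 : H (m * (θ + 2 * π * k / m)) = H (m * θ) := by
        have := hper.nat_mul k (m * θ)
        rw [← this]
        congr 1
        field_simp
      rw [e1]
    rw [h1, intervalIntegral.integral_comp_add_right (f := fun θ : ℝ => H (m * θ) *
        Real.log ‖x - r * Complex.exp (θ * Complex.I)‖)]
    have h2 := hP.intervalIntegral_add_eq (-π + 2 * π * k / m) (-π)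
    have e3 : -π + 2 * π * k / m + 2 * π = π + 2 * π * k / m := by ring
    have e4 : -π + 2 * π = π := by ring
    rw [e3, e4] at h2
    exact h2
  -- step 2
  have s2 : (m:ℝ) * ∫ θ in (-π)..π, H (m * θ) * Real.log ‖x - r * Complex.exp (θ * Complex.I)‖ =
      ∫ θ in (-π)..π, H (m * θ) *
        Real.log ‖x ^ m - (r ^ m : ℝ) * Complex.exp ((m * θ : ℝ) * Complex.I)‖ := by
    calc (m:ℝ) * ∫ θ in (-π)..π, H (m * θ) * Real.log ‖x - r * Complex.exp (θ * Complex.I)‖
        = ∑ k ∈ Finset.range m, ∫ θ in (-π)..π, H (m * θ) *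
          Real.log ‖x - r * Complex.exp ((θ + 2 * π * k / m : ℝ) * Complex.I)‖ := by
          rw [Finset.sum_congr rfl (fun k _ => s1 k), Finset.sum_const, Finset.card_range,
            nsmul_eq_mul]
      _ = ∫ θ in (-π)..π, ∑ k ∈ Finset.range m, H (m * θ) *
          Real.log ‖x - r * Complex.exp ((θ + 2 * π * k / m : ℝ) * Complex.I)‖ := by
          rw [intervalIntegral.integral_finsetSum]
          intro k _
          exact hI _
      _ = _ := by
          refine intervalIntegral.integral_congr ?_
          intro θ _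
          simp only
          rw [← Finset.mul_sum]
          congr 1
          have hne : ∀ k ∈ Finset.range m,
              ‖x - r * Complex.exp ((θ + 2 * π * k / m : ℝ) * Complex.I)‖ ≠ 0 := by
            intro k _ h
            rw [norm_eq_zero, sub_eq_zero] at h
            apply hx
            rw [h, norm_mul, Complex.norm_exp_ofReal_mul_I, mul_one, Complex.norm_real,
              Real.norm_eq_abs, abs_of_pos hr]
          rw [← Real.log_prod hne, ← norm_prod]
          congr 2
          have h3 := prod_rotations m hm x (r * Complex.exp (θ * Complex.I))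
          have e5 : (r * Complex.exp (θ * Complex.I)) ^ m =
              ((r ^ m : ℝ) : ℂ) * Complex.exp ((m * θ : ℝ) * Complex.I) := by
            rw [mul_pow, ← Complex.exp_nat_mul]
            push_cast
            ring_nf
          rw [← e5, ← h3]
          refine Finset.prod_congr rfl ?_
          intro k _
          have e7 : ((θ + 2 * π * k / m : ℝ) : ℂ) * Complex.I =
              θ * Complex.I + 2 * π * k / m * Complex.I := by
            push_cast
            ring
          rw [e7, Complex.exp_add, ← mul_assoc (r:ℂ)]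
  -- step 3
  have hrm : (0:ℝ) < r ^ m := by positivity
  have hxm : r ^ m ≠ ‖x ^ m‖ := by
    rw [norm_pow]
    intro h
    exact hx ((pow_left_inj₀ hr.le (norm_nonneg x) (by omega)).1 h)
  have hK : Continuous (fun θ : ℝ => Real.log ‖x ^ m - (r ^ m : ℝ) *
      Complex.exp (θ * Complex.I)‖) := by
    have := continuous_log_circle hrm hxm 1
    simpa using this
  have s3 : (∫ θ in (-π)..π, H (m * θ) *
        Real.log ‖x ^ m - (r ^ m : ℝ) * Complex.exp ((m * θ : ℝ) * Complex.I)‖) =
      ∫ θ in (-π)..π,
        H θ * Real.log ‖x ^ m - (r ^ m : ℝ) * Complex.exp (θ * Complex.I)‖ := by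
    have hP : Function.Periodic (fun θ : ℝ => H θ *
        Real.log ‖x ^ m - (r ^ m : ℝ) * Complex.exp (θ * Complex.I)‖) (2 * π) := by
      intro θ
      simp only
      have e2 : Complex.exp ((θ + 2 * π : ℝ) * Complex.I) = Complex.exp (θ * Complex.I) := by
        push_cast
        rw [add_mul, Complex.exp_add, Complex.exp_two_pi_mul_I, mul_one]
      rw [hper θ, e2]
    have h4 := intervalIntegral.integral_comp_mul_left (a := -π) (b := π) (fun θ : ℝ => H θ *
        Real.log ‖x ^ m - (r ^ m : ℝ) * Complex.exp (θ * Complex.I)‖) hm0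
    rw [h4]
    have h5 := hP.intervalIntegral_add_zsmul_eq (m : ℤ) (m * -π) (fun t₁ t₂ =>
      (intervalIntegrable_of_bdd hH C hC _ _).mul_continuousOn hK.continuousOn)
    have e6 : (m:ℝ) * -π + (m : ℤ) • (2 * π) = m * π := by
      simp only [zsmul_eq_mul]; push_cast; ring
    rw [e6] at h5
    rw [h5]
    have h6 := hP.intervalIntegral_add_eq (m * -π) (-π)
    have e4 : -π + 2 * π = π := by ring
    rw [e4] at h6
    rw [h6, smul_eq_mul, zsmul_eq_mul, Int.cast_natCast, inv_mul_cancel_left₀ hm0]
  rw [← s3, ← s2, one_div, inv_mul_cancel_left₀ hm0]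

/-- the indicator of `a < |arg e^{iθ}|` integrated against a continuous function -/
theorem integral_arg_indicator (a : ℝ) (ha : 0 ≤ a) (haπ : a ≤ π) (F : ℝ → ℝ) (hF : Continuous F) :
    ∫ θ in (-π)..π, (if a < |Complex.arg (Complex.exp (θ * Complex.I))| then (1:ℝ) else 0) * F θ =
      ∫ θ in a..π, (F θ + F (-θ)) := by
  have hπ := Real.pi_pos
  set G : ℝ → ℝ := fun θ => (if a < |θ| then (1:ℝ) else 0) * F θ with hG
  have hmeas : Measurable (fun θ : ℝ => if a < |θ| then (1:ℝ) else 0) :=
    Measurable.ite (measurableSet_lt measurable_const (measurable_id.abs)) measurable_const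
      measurable_const
  have hbd : ∀ θ : ℝ, |if a < |θ| then (1:ℝ) else 0| ≤ 1 := by
    intro θ; split_ifs <;> simp
  have hGI : ∀ c d, IntervalIntegrable G volume c d := fun c d =>
    (intervalIntegrable_of_bdd hmeas 1 hbd c d).mul_continuousOn hF.continuousOn
  have h1 : (∫ θ in (-π)..π,
      (if a < |Complex.arg (Complex.exp (θ * Complex.I))| then (1:ℝ) else 0) * F θ) =
      ∫ θ in (-π)..π, G θ := by
    refine intervalIntegral.integral_congr_ae ?_
    refine Filter.Eventually.of_forall ?_
    intro θ hθ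
    rw [uIoc_of_le (by linarith)] at hθ
    rw [Complex.arg_exp_mul_I, (toIocMod_eq_self Real.two_pi_pos).2
      (by rw [show -π + 2 * π = π by ring]; exact hθ)]
  have h2 : (∫ θ in (-π)..0, G θ) = ∫ θ in (0:ℝ)..π, G (-θ) := by
    rw [intervalIntegral.integral_comp_neg, neg_zero]
  have hGn : IntervalIntegrable (fun θ => G (-θ)) volume 0 π :=
    (intervalIntegrable_of_bdd (hmeas.comp measurable_neg) 1 (fun θ => hbd _) 0 π).mul_continuousOn
      (hF.comp continuous_neg).continuousOn
  rw [h1, ← intervalIntegral.integral_add_adjacent_intervals (hGI (-π) 0) (hGI 0 π), h2,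
    ← intervalIntegral.integral_add hGn (hGI 0 π)]
  have hsum : ∀ c d, IntervalIntegrable (fun θ => G (-θ) + G θ) volume c d := fun c d =>
    ((intervalIntegrable_of_bdd (hmeas.comp measurable_neg) 1 (fun θ => hbd _) c d).mul_continuousOn
      (hF.comp continuous_neg).continuousOn).add (hGI c d)
  rw [← intervalIntegral.integral_add_adjacent_intervals (hsum 0 a) (hsum a π)]
  have k1 : (∫ θ in (0:ℝ)..a, (G (-θ) + G θ)) = 0 := by
    rw [intervalIntegral.integral_congr_ae (g := fun _ => (0:ℝ))]
    · simp
    · refine Filter.Eventually.of_forall ?_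
      intro θ hθ
      rw [uIoc_of_le ha] at hθ
      have : ¬ a < |θ| := by rw [abs_of_pos hθ.1]; exact not_lt.2 hθ.2
      simp only [hG, abs_neg, if_neg this]
      ring
  have k2 : (∫ θ in a..π, (G (-θ) + G θ)) = ∫ θ in a..π, (F θ + F (-θ)) := by
    refine intervalIntegral.integral_congr_ae ?_
    refine Filter.Eventually.of_forall ?_
    intro θ hθ
    rw [uIoc_of_le haπ] at hθ
    have : a < |θ| := lt_of_lt_of_le hθ.1 (le_abs_self θ)
    simp only [hG, abs_neg, if_pos this]
    ring
  rw [k1, k2, zero_add]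

end

end Pool.Agent.Helper87.VS
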