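import Mathlib

/-!
# Polar coordinates in the plane for integrable functions, and integrability of the logarithm
-/

open MeasureTheory Set

namespace Pool.Agent.Helper87.VS

noncomputable section

open scoped Real

/-- integrability in polar coordinates -/
theorem integrableOn_polar {f : ℂ → ℝ} (hf : Integrable f) :
    IntegrableOn (fun p : ℝ × ℝ => p.1 * f (p.1 * Complex.exp (p.2 * Complex.I)))
      (Ioi (0:ℝ) ×ˢ Ioo (-π) π) := by
  have h1 : Integrable (fun p : ℝ × ℝ => f (Complex.measurableEquivRealProd.symm p)) :=
    (Complex.volume_preserving_equiv_real_prod.symm).integrable_comp_emb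
      Complex.measurableEquivRealProd.symm.measurableEmbedding |>.2 hf
  have h2 : IntegrableOn (fun p : ℝ × ℝ => f (Complex.measurableEquivRealProd.symm p))
      (polarCoord.symm '' polarCoord.target) := h1.integrableOn
  rw [integrableOn_image_iff_integrableOn_abs_det_fderiv_smul volume
    polarCoord.open_target.measurableSet
    (fun p _ ↦ (hasFDerivAt_polarCoord_symm p).hasFDerivWithinAt) polarCoord.symm.injOn] at h2
  refine (integrableOn_congr_fun ?_ polarCoord.open_target.measurableSet).1 h2
  intro p hp
  have hp0 : 0 < p.1 := hp.1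
  simp only [smul_eq_mul]
  rw [det_fderivPolarCoordSymm, abs_of_pos hp0, Complex.measurableEquivRealProd_symm_polarCoord_symm_apply,
    Complex.polarCoord_symm_apply, Complex.exp_mul_I]
  norm_cast

/-- integration in polar coordinates -/
theorem integral_polar {f : ℂ → ℝ} (hf : Integrable f) :
    ∫ y, f y = ∫ r in Ioi (0:ℝ), r * ∫ θ in (-π)..π, f (r * Complex.exp (θ * Complex.I)) := by
  rw [← Complex.integral_comp_polarCoord_symm]
  have h1 : (∫ p in polarCoord.target, p.1 • f (Complex.polarCoord.symm p)) =
      ∫ p in (Ioi (0:ℝ) ×ˢ Ioo (-π) π : Set (ℝ × ℝ)),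
        p.1 * f (p.1 * Complex.exp (p.2 * Complex.I)) := by
    refine setIntegral_congr_fun polarCoord.open_target.measurableSet ?_
    intro p hp
    simp only [smul_eq_mul]
    rw [Complex.polarCoord_symm_apply, Complex.exp_mul_I]
    norm_cast
  rw [h1, Measure.volume_eq_prod, setIntegral_prod]
  · refine setIntegral_congr_fun measurableSet_Ioi ?_
    intro r _
    simp only
    rw [integral_const_mul, intervalIntegral.integral_of_le (by linarith [Real.pi_pos]),
      integral_Ioc_eq_integral_Ioo]
  · exact integrableOn_polar hf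

/-- `log ‖z‖` is integrable on balls -/
theorem integrableOn_log_norm_ball (R : ℝ) :
    IntegrableOn (fun y : ℂ => Real.log ‖y‖) (Metric.ball 0 R) := by
  constructor
  · exact (Real.measurable_log.comp measurable_norm).aestronglyMeasurable
  · rw [hasFiniteIntegral_iff_enorm, ← lintegral_indicator measurableSet_ball,
      ← Complex.lintegral_comp_polarCoord_symm]
    have hb : ∀ p ∈ polarCoord.target, ENNReal.ofReal p.1 •
        (Metric.ball (0:ℂ) R).indicator (fun y : ℂ => ‖Real.log ‖y‖‖ₑ) (Complex.polarCoord.symm p)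
        ≤ (Ioo (0:ℝ) R ×ˢ Ioo (-π) π).indicator (fun _ => ENNReal.ofReal (1 + R ^ 2)) p := by
      intro p hp
      have hp1 : 0 < p.1 := hp.1
      have hp2 : p.2 ∈ Ioo (-π) π := hp.2
      by_cases hR : p.1 < R
      · rw [indicator_of_mem (show p ∈ Ioo (0:ℝ) R ×ˢ Ioo (-π) π from ⟨⟨hp1, hR⟩, hp2⟩)]
        rw [indicator_of_mem (by
          rw [Metric.mem_ball, dist_zero_right, Complex.norm_polarCoord_symm, abs_of_pos hp1]
          exact hR)]
        rw [Complex.norm_polarCoord_symm, abs_of_pos hp1, smul_eq_mul, Real.enorm_eq_ofReal_abs,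
          ← ENNReal.ofReal_mul hp1.le]
        apply ENNReal.ofReal_le_ofReal
        rcases le_total p.1 1 with h | h
        · have h1 : |Real.log p.1| = -Real.log p.1 := abs_of_nonpos (Real.log_nonpos hp1.le h)
          have h2 : Real.log (p.1)⁻¹ ≤ (p.1)⁻¹ := Real.log_le_self (by positivity)
          rw [Real.log_inv] at h2
          rw [h1]
          have h3 : p.1 * -Real.log p.1 ≤ p.1 * (p.1)⁻¹ := mul_le_mul_of_nonneg_left h2 hp1.le
          rw [mul_inv_cancel₀ hp1.ne'] at h3
          nlinarith [sq_nonneg R]
        · have h1 : |Real.log p.1| = Real.log p.1 := abs_of_nonneg (Real.log_nonneg h)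
          have h2 : Real.log p.1 ≤ p.1 := Real.log_le_self hp1.le
          rw [h1]
          nlinarith
      · rw [indicator_of_notMem (by
          rw [Metric.mem_ball, dist_zero_right, Complex.norm_polarCoord_symm, abs_of_pos hp1]
          exact hR)]
        simp
    calc _ ≤ ∫⁻ p in polarCoord.target,
          (Ioo (0:ℝ) R ×ˢ Ioo (-π) π).indicator (fun _ => ENNReal.ofReal (1 + R ^ 2)) p :=
          setLIntegral_mono' polarCoord.open_target.measurableSet hb
      _ ≤ ∫⁻ p, (Ioo (0:ℝ) R ×ˢ Ioo (-π) π).indicator (fun _ => ENNReal.ofReal (1 + R ^ 2)) p :=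
          setLIntegral_le_lintegral _ _
      _ < ⊤ := by
          rw [lintegral_indicator (measurableSet_Ioo.prod measurableSet_Ioo), lintegral_const]
          apply ENNReal.mul_lt_top ENNReal.ofReal_lt_top
          rw [Measure.restrict_apply MeasurableSet.univ, univ_inter, Measure.volume_eq_prod,
            Measure.prod_prod]
          exact ENNReal.mul_lt_top (by simp) (by simp)

/-- `log ‖x - y‖` is integrable on bounded sets -/
theorem integrableOn_log_norm_sub (x : ℂ) {S : Set ℂ} (hS : Bornology.IsBounded S) :
    IntegrableOn (fun y : ℂ => Real.log ‖x - y‖) S := by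
  obtain ⟨R, hR⟩ := hS.subset_ball x
  refine IntegrableOn.mono_set ?_ hR
  have h1 := integrableOn_log_norm_ball R
  have h2 : IntegrableOn ((fun y : ℂ => Real.log ‖y‖) ∘ (fun y => x - y))
      ((fun y => x - y) ⁻¹' (Metric.ball 0 R)) :=
    ((volume.measurePreserving_sub_left x).integrableOn_comp_preimage
      (MeasurableEquiv.subLeft x).measurableEmbedding).2 h1
  have h3 : (fun y => x - y) ⁻¹' (Metric.ball (0:ℂ) R) = Metric.ball x R := by
    ext y
    simp [dist_eq_norm, norm_sub_rev x y]
  rw [h3] at h2
  exact h2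

end

end Pool.Agent.Helper87.VS
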