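import Pool.Agent.Helper90.VS.Defs
import Pool.Agent.Helper87.VS.Polar
import Pool.Agent.Helper87.VS.Average

/-!
# MP_539ca6_an, R3b: the logarithmic potential of the removed region in strip coordinates
-/

open MeasureTheory Set

namespace Pool.Agent.Helper87.VS

open Pool.Agent.Helper90.VS

noncomputable section

open scoped Real

theorem measurableSet_Aset (m : ℕ) {a : ℝ → ℝ} (ha : Prof a) : MeasurableSet (Aset m a) := by
  have hmeas : Measurable a := ha.mono.measurable
  have h1 : MeasurableSet {x : ℂ | Real.exp (-10) < ‖x‖ ^ m} :=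
    measurableSet_lt measurable_const (measurable_norm.pow_const m)
  have h2 : MeasurableSet {x : ℂ | ‖x‖ < 1} := measurableSet_lt measurable_norm measurable_const
  have h3 : MeasurableSet {x : ℂ | a (-(m * Real.log ‖x‖)) < |Complex.arg (x ^ m)|} := by
    refine measurableSet_lt (hmeas.comp ?_) ?_
    · exact ((Real.measurable_log.comp measurable_norm).const_mul _).neg
    · have : Measurable (fun x : ℂ => Complex.arg (x ^ m)) :=
        Complex.measurable_arg.comp (measurable_id.pow_const m)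
      exact this.abs
  exact h1.inter (h2.inter h3)

theorem Aset_subset_ball (m : ℕ) (a : ℝ → ℝ) : Aset m a ⊆ Metric.ball 0 1 := by
  intro x hx
  rw [Metric.mem_ball, dist_zero_right]
  exact hx.2.1

/-- the strip form of the logarithmic kernel -/
theorem log_norm_strip (X θ t τ : ℝ) (h : τ ≠ t) :
    Real.log ‖Complex.exp (-(t:ℂ) + X * Complex.I) -
      (Real.exp (-τ) : ℝ) * Complex.exp (θ * Complex.I)‖ =
      (1 / 2) * (Real.log 2 - t - τ + Lam (t - τ) (X - θ)) := by
  have hpos : 0 < Real.cosh (t - τ) - Real.cos (X - θ) := by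
    have h1 : 1 < Real.cosh (t - τ) := Real.one_lt_cosh.2 (sub_ne_zero.2 h.symm)
    linarith [Real.cos_le_one (X - θ)]
  have hsq : ‖Complex.exp (-(t:ℂ) + X * Complex.I) -
      (Real.exp (-τ) : ℝ) * Complex.exp (θ * Complex.I)‖ ^ 2 =
      2 * Real.exp (-t - τ) * (Real.cosh (t - τ) - Real.cos (X - θ)) := by
    rw [← Complex.normSq_eq_norm_sq, Complex.normSq_apply]
    rw [Complex.exp_add, ← Complex.ofReal_neg, ← Complex.ofReal_exp]
    simp only [Complex.sub_re, Complex.sub_im, Complex.mul_re, Complex.mul_im, Complex.ofReal_re,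
      Complex.ofReal_im, Complex.exp_ofReal_mul_I_re, Complex.exp_ofReal_mul_I_im]
    rw [Real.cosh_eq, Real.cos_sub]
    have e1 : Real.exp (-t - τ) = Real.exp (-t) * Real.exp (-τ) := by
      rw [← Real.exp_add]; ring_nf
    have e2 : Real.exp (-t - τ) * Real.exp (t - τ) = Real.exp (-τ) ^ 2 := by
      rw [← Real.exp_add, ← Real.exp_nat_mul]; ring_nf
    have e3 : Real.exp (-t - τ) * Real.exp (-(t - τ)) = Real.exp (-t) ^ 2 := by
      rw [← Real.exp_add, ← Real.exp_nat_mul]; ring_nf
    have e4 : 2 * Real.exp (-t - τ) * ((Real.exp (t - τ) + Real.exp (-(t - τ))) / 2 -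
        (Real.cos X * Real.cos θ + Real.sin X * Real.sin θ)) =
        Real.exp (-t - τ) * Real.exp (t - τ) + Real.exp (-t - τ) * Real.exp (-(t - τ)) -
        2 * Real.exp (-t - τ) * (Real.cos X * Real.cos θ + Real.sin X * Real.sin θ) := by ring
    rw [e4, e2, e3, e1]
    have s1 := Real.sin_sq_add_cos_sq X
    have s2 := Real.sin_sq_add_cos_sq θ
    linear_combination (Real.exp (-t)) ^ 2 * s1 + (Real.exp (-τ)) ^ 2 * s2
  have h1 : Real.log (‖Complex.exp (-(t:ℂ) + X * Complex.I) -
      (Real.exp (-τ) : ℝ) * Complex.exp (θ * Complex.I)‖ ^ 2) =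
      Real.log 2 + (-t - τ) + Real.log (Real.cosh (t - τ) - Real.cos (X - θ)) := by
    rw [hsq, Real.log_mul (by positivity) hpos.ne', Real.log_mul (by norm_num) (by positivity),
      Real.log_exp]
  rw [Real.log_pow, Nat.cast_ofNat] at h1
  unfold Lam
  linarith

/-- the indicator function of the angular condition -/
def angInd (b θ : ℝ) : ℝ := if b < |Complex.arg (Complex.exp (θ * Complex.I))| then 1 else 0

theorem measurable_angInd (b : ℝ) : Measurable (angInd b) := by
  unfold angInd
  refine Measurable.ite (measurableSet_lt measurable_const ?_) measurable_const measurable_const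
  have : Measurable (fun θ : ℝ => Complex.arg (Complex.exp (θ * Complex.I))) :=
    Complex.measurable_arg.comp (by fun_prop)
  exact this.abs

theorem angInd_bdd (b θ : ℝ) : |angInd b θ| ≤ 1 := by
  unfold angInd; split_ifs <;> simp

theorem angInd_periodic (b : ℝ) : Function.Periodic (angInd b) (2 * π) := by
  intro θ
  unfold angInd
  have e2 : Complex.exp ((θ + 2 * π : ℝ) * Complex.I) = Complex.exp (θ * Complex.I) := by
    push_cast
    rw [add_mul, Complex.exp_add, Complex.exp_two_pi_mul_I, mul_one]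
  rw [e2]

theorem pt_pow (m : ℕ) (hm : 1 ≤ m) (X t : ℝ) :
    (pt m X t) ^ m = Complex.exp (-(t:ℂ) + X * Complex.I) := by
  have hm0 : (m:ℂ) ≠ 0 := by
    have : m ≠ 0 := by omega
    exact_mod_cast this
  unfold pt
  rw [← Complex.exp_nat_mul]
  congr 1
  field_simp

theorem norm_pt (m : ℕ) (X t : ℝ) : ‖pt m X t‖ = Real.exp (-(t / m)) := by
  unfold pt
  rw [Complex.norm_exp]
  congr 1
  have : (-(t:ℂ) + X * Complex.I) / m = ((-(t/m) : ℝ) : ℂ) + ((X/m : ℝ):ℂ) * Complex.I := by
    push_cast; ring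
  rw [this]
  simp

/-- the inner (angular) integral -/
theorem inner_eq (m : ℕ) (hm : 1 ≤ m) (b : ℝ) (hb : 0 ≤ b) (hbπ : b ≤ π) (X t τ : ℝ)
    (h : τ ≠ t) :
    ∫ θ in (-π)..π, angInd b (m * θ) *
      Real.log ‖pt m X t - (Real.exp (-(τ / m)) : ℝ) * Complex.exp (θ * Complex.I)‖ =
    (1 / (2 * m)) * (2 * (π - b) * (Real.log 2 - t - τ) + LL b X (t - τ)) := by
  have hm0 : (m:ℝ) ≠ 0 := by
    have : (1:ℝ) ≤ m := by exact_mod_cast hm
    linarith
  have hne : Real.exp (-(τ / m)) ≠ ‖pt m X t‖ := by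
    rw [norm_pt]
    intro hh
    have := Real.exp_injective hh
    apply h
    field_simp at this
    linarith
  have h1 := average_log m hm (pt m X t) (Real.exp (-(τ / m))) (Real.exp_pos _) hne
    (angInd b) (measurable_angInd b) 1 (angInd_bdd b) (angInd_periodic b)
  rw [h1]
  have e1 : Real.exp (-(τ / m)) ^ m = Real.exp (-τ) := by
    rw [← Real.exp_nat_mul]
    congr 1
    field_simp
  rw [e1, pt_pow m hm]
  have hF : Continuous (fun θ : ℝ => Real.log ‖Complex.exp (-(t:ℂ) + X * Complex.I) -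
      (Real.exp (-τ) : ℝ) * Complex.exp (θ * Complex.I)‖) := by
    have h2 : (Real.exp (-τ)) ≠ ‖Complex.exp (-(t:ℂ) + X * Complex.I)‖ := by
      rw [Complex.norm_exp]
      intro hh
      have := Real.exp_injective hh
      simp at this
      exact h this
    have := continuous_log_circle (Real.exp_pos (-τ)) h2 1
    simpa using this
  have h3 := integral_arg_indicator b hb hbπ _ hF
  unfold angInd
  rw [h3]
  have hLam : ∀ c : ℝ, Continuous (fun θ : ℝ => Lam (t - τ) (X + c * θ)) := by
    intro c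
    unfold Lam
    refine Continuous.log (by fun_prop) ?_
    intro θ
    have h1 : 1 < Real.cosh (t - τ) := Real.one_lt_cosh.2 (sub_ne_zero.2 h.symm)
    linarith [Real.cos_le_one (X + c * θ)]
  have hc1 : Continuous (fun θ : ℝ => Lam (t - τ) (X - θ)) := by
    have := hLam (-1)
    simpa [sub_eq_add_neg] using this
  have hc2 : Continuous (fun θ : ℝ => Lam (t - τ) (X + θ)) := by
    have := hLam 1
    simpa using this
  have h4 : (∫ θ in b..π, (Real.log ‖Complex.exp (-(t:ℂ) + X * Complex.I) -
      (Real.exp (-τ) : ℝ) * Complex.exp (θ * Complex.I)‖ +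
      Real.log ‖Complex.exp (-(t:ℂ) + X * Complex.I) -
      (Real.exp (-τ) : ℝ) * Complex.exp ((-θ : ℝ) * Complex.I)‖)) =
      ∫ θ in b..π, ((Real.log 2 - t - τ) +
        (1 / 2) * (Lam (t - τ) (X - θ) + Lam (t - τ) (X + θ))) := by
    refine intervalIntegral.integral_congr ?_
    intro θ _
    simp only
    rw [log_norm_strip X θ t τ h, log_norm_strip X (-θ) t τ h, sub_neg_eq_add]
    ring
  have i2 : IntervalIntegrable (fun θ : ℝ => (1 / 2) * (Lam (t - τ) (X - θ) +
      Lam (t - τ) (X + θ))) volume b π :=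
    (continuous_const.mul (hc1.add hc2)).intervalIntegrable _ _
  rw [h4, intervalIntegral.integral_add (intervalIntegrable_const) i2,
    intervalIntegral.integral_const_mul, intervalIntegral.integral_const]
  unfold LL
  rw [smul_eq_mul]
  field_simp

theorem image_exp_Ioo (m : ℕ) (hm : 1 ≤ m) :
    (fun τ : ℝ => Real.exp (-(τ / m))) '' Ioo 0 10 = Ioo (Real.exp (-(10 / m))) 1 := by
  have hm1 : (1:ℝ) ≤ m := by exact_mod_cast hm
  have hm0 : (0:ℝ) < m := by linarith
  ext r
  simp only [mem_image, mem_Ioo]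
  constructor
  · rintro ⟨τ, ⟨h1, h2⟩, rfl⟩
    constructor
    · apply Real.exp_lt_exp.2
      have : τ / m < 10 / m := by gcongr
      linarith
    · rw [Real.exp_lt_one_iff]
      have : 0 < τ / m := by positivity
      linarith
  · rintro ⟨h1, h2⟩
    have hr : 0 < r := lt_trans (Real.exp_pos _) h1
    refine ⟨-(m * Real.log r), ⟨?_, ?_⟩, ?_⟩
    · have := Real.log_neg hr h2
      nlinarith
    · have h3 := (Real.lt_log_iff_exp_lt hr).2 h1
      have h4 : m * (-(10 / m)) < m * Real.log r := by gcongr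
      have h5 : (m:ℝ) * (-(10 / m)) = -10 := by field_simp
      linarith
    · have : -(-(m * Real.log r) / m) = Real.log r := by field_simp
      rw [this, Real.exp_log hr]

theorem mem_Aset_polar (m : ℕ) (hm : 1 ≤ m) (a : ℝ → ℝ) (r : ℝ) (hr : 0 < r) (θ : ℝ) :
    ((r:ℂ) * Complex.exp (θ * Complex.I)) ∈ Aset m a ↔
      r ∈ Ioo (Real.exp (-(10 / m))) 1 ∧
        a (-(m * Real.log r)) < |Complex.arg (Complex.exp ((m * θ : ℝ) * Complex.I))| := by
  have hm1 : (1:ℝ) ≤ m := by exact_mod_cast hm
  have hm0 : (0:ℝ) < m := by linarith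
  have hn : ‖(r:ℂ) * Complex.exp (θ * Complex.I)‖ = r := by
    rw [norm_mul, Complex.norm_exp_ofReal_mul_I, mul_one, Complex.norm_real, Real.norm_eq_abs,
      abs_of_pos hr]
  have hp : ((r:ℂ) * Complex.exp (θ * Complex.I)) ^ m =
      ((r ^ m : ℝ) : ℂ) * Complex.exp ((m * θ : ℝ) * Complex.I) := by
    rw [mul_pow, ← Complex.exp_nat_mul]
    push_cast
    ring_nf
  have hpow : Real.exp (-10) < r ^ m ↔ Real.exp (-(10 / m)) < r := by
    have e1 : Real.exp (-10) = Real.exp (-(10 / m)) ^ m := by
      rw [← Real.exp_nat_mul]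
      congr 1
      field_simp
    rw [e1]
    exact pow_lt_pow_iff_left₀ (Real.exp_pos _).le hr.le (by omega)
  unfold Aset
  rw [mem_ofPred_eq, hn, hp, Complex.arg_real_mul _ (by positivity), hpow, mem_Ioo]
  tauto

/-- the integrand in strip coordinates -/
def stripInt (m : ℕ) (a : ℝ → ℝ) (X t τ : ℝ) : ℝ :=
  wt m τ * (2 * (Real.pi - a τ) * (Real.log 2 - t - τ) + LL (a τ) X (t - τ))

theorem inner_Aset (m : ℕ) (hm : 1 ≤ m) (a : ℝ → ℝ) (ha : Prof a) (X t : ℝ) (τ : ℝ)
    (hτ : τ ∈ Ioo (0:ℝ) 10) (h : τ ≠ t) :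
    ∫ θ in (-π)..π, (Aset m a).indicator (fun y => Real.log ‖pt m X t - y‖)
      ((Real.exp (-(τ / m)) : ℝ) * Complex.exp (θ * Complex.I)) =
    (1 / (2 * m)) * (2 * (π - a τ) * (Real.log 2 - t - τ) + LL (a τ) X (t - τ)) := by
  have hm1 : (1:ℝ) ≤ m := by exact_mod_cast hm
  have hm0 : (0:ℝ) < m := by linarith
  rw [← inner_eq m hm (a τ) (ha.nonneg τ) (ha.le_pi τ) X t τ h]
  refine intervalIntegral.integral_congr ?_
  intro θ _
  simp only
  have hr : Real.exp (-(τ / m)) ∈ Ioo (Real.exp (-(10 / m))) 1 := by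
    rw [← image_exp_Ioo m hm]
    exact ⟨τ, hτ, rfl⟩
  have e1 : -(m * Real.log (Real.exp (-(τ / m)))) = τ := by
    rw [Real.log_exp]; field_simp
  by_cases hh : a τ < |Complex.arg (Complex.exp ((m * θ : ℝ) * Complex.I))|
  · rw [indicator_of_mem ((mem_Aset_polar m hm a _ (Real.exp_pos _) θ).2 ⟨hr, by rw [e1]; exact hh⟩)]
    unfold angInd
    rw [if_pos hh, one_mul]
  · rw [indicator_of_notMem (fun hc => hh (by
      have := ((mem_Aset_polar m hm a _ (Real.exp_pos _) θ).1 hc).2
      rwa [e1] at this))]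
    unfold angInd
    rw [if_neg hh, zero_mul]

theorem strip_core (m : ℕ) (hm : 1 ≤ m) (a : ℝ → ℝ) (ha : Prof a) (X t : ℝ) :
    IntegrableOn (stripInt m a X t) (Ioo 0 10) ∧
    ∫ y in Aset m a, Real.log ‖pt m X t - y‖ =
      (1 / (2 * m ^ 2)) * ∫ τ in Ioo (0:ℝ) 10, stripInt m a X t τ := by
  have hm1 : (1:ℝ) ≤ m := by exact_mod_cast hm
  have hm0 : (0:ℝ) < m := by linarith
  set f : ℂ → ℝ := (Aset m a).indicator (fun y => Real.log ‖pt m X t - y‖) with hf
  have hA := measurableSet_Aset m ha
  have hint : Integrable f :=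
    (integrable_indicator_iff hA).2 (integrableOn_log_norm_sub _
      (Metric.isBounded_ball.subset (Aset_subset_ball m a)))
  set K : ℝ → ℝ := fun r => r * ∫ θ in (-π)..π, f (r * Complex.exp (θ * Complex.I)) with hK
  have hKint : IntegrableOn K (Ioi 0) := by
    have h1 := integrableOn_polar hint
    rw [IntegrableOn, Measure.volume_eq_prod, ← Measure.prod_restrict] at h1
    have h2 := h1.integral_prod_left
    refine (integrable_congr ?_).1 h2
    refine (ae_restrict_mem measurableSet_Ioi).mono ?_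
    intro r _
    simp only [hK]
    rw [integral_const_mul, intervalIntegral.integral_of_le (by linarith [Real.pi_pos]),
      integral_Ioc_eq_integral_Ioo]
  have hKzero : ∀ r ∈ Ioi (0:ℝ), K r = (Ioo (Real.exp (-(10 / m))) 1).indicator K r := by
    intro r hr
    by_cases h : r ∈ Ioo (Real.exp (-(10 / m))) 1
    · rw [indicator_of_mem h]
    · rw [indicator_of_notMem h]
      simp only [hK]
      have : (∫ θ in (-π)..π, f (r * Complex.exp (θ * Complex.I))) = ∫ θ in (-π)..π, (0:ℝ) := by
        refine intervalIntegral.integral_congr ?_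
        intro θ _
        simp only [hf]
        rw [indicator_of_notMem (fun hc => h ((mem_Aset_polar m hm a r hr θ).1 hc).1)]
      rw [this]
      simp
  have hder : ∀ τ ∈ Ioo (0:ℝ) 10, HasDerivWithinAt (fun τ : ℝ => Real.exp (-(τ / m)))
      (Real.exp (-(τ / m)) * (-(1 / m))) (Ioo 0 10) τ := by
    intro τ _
    have : HasDerivAt (fun τ : ℝ => Real.exp (-(τ / m))) (Real.exp (-(τ / m)) * (-(1 / m))) τ :=
      (((hasDerivAt_id' τ).div_const (m:ℝ)).neg).exp
    exact this.hasDerivWithinAt
  have hinj : InjOn (fun τ : ℝ => Real.exp (-(τ / m))) (Ioo 0 10) := by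
    intro τ _ τ' _ h
    have := Real.exp_injective h
    field_simp at this
    linarith
  have hval : ∀ᵐ τ : ℝ, τ ∈ Ioo (0:ℝ) 10 →
      |Real.exp (-(τ / m)) * (-(1 / m))| • K (Real.exp (-(τ / m))) =
        (1 / (2 * m ^ 2)) * stripInt m a X t τ := by
    have h0 : ({t} : Set ℝ)ᶜ ∈ ae (volume : Measure ℝ) :=
      compl_mem_ae_iff.2 (measure_singleton t)
    filter_upwards [h0] with τ hτ1 hτ
    have hne : τ ≠ t := hτ1
    simp only [hK, hf]
    rw [inner_Aset m hm a ha X t τ hτ hne]
    unfold stripInt wt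
    rw [abs_mul, abs_of_pos (Real.exp_pos _), abs_neg, abs_of_pos (by positivity), smul_eq_mul]
    have e1 : Real.exp (-(2 * τ / m)) = Real.exp (-(τ / m)) * Real.exp (-(τ / m)) := by
      rw [← Real.exp_add]; ring_nf
    rw [e1]
    field_simp
  constructor
  · have h1 : IntegrableOn K (Ioo (Real.exp (-(10 / m))) 1) :=
      hKint.mono_set (fun r hr => lt_trans (Real.exp_pos _) hr.1)
    rw [← image_exp_Ioo m hm, integrableOn_image_iff_integrableOn_abs_deriv_smul measurableSet_Ioo
      hder hinj] at h1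
    have h2 : IntegrableOn (fun τ => (1 / (2 * (m:ℝ) ^ 2)) * stripInt m a X t τ) (Ioo 0 10) := by
      refine (integrable_congr ?_).1 h1
      exact (ae_restrict_iff' measurableSet_Ioo).2 hval
    have h3 := h2.const_mul (2 * (m:ℝ) ^ 2)
    refine h3.congr (Filter.Eventually.of_forall ?_)
    intro τ
    simp only
    field_simp
  · rw [← integral_indicator hA, integral_polar hint]
    change (∫ r in Ioi (0:ℝ), K r) = _
    rw [setIntegral_congr_fun measurableSet_Ioi hKzero, setIntegral_indicator measurableSet_Ioo]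
    have h3 : Ioi (0:ℝ) ∩ Ioo (Real.exp (-(10 / m))) 1 = Ioo (Real.exp (-(10 / m))) 1 := by
      rw [inter_eq_right]
      intro r hr
      exact lt_trans (Real.exp_pos _) hr.1
    rw [h3, ← image_exp_Ioo m hm, integral_image_eq_integral_abs_deriv_smul measurableSet_Ioo
      hder hinj, ← integral_const_mul]
    exact setIntegral_congr_ae measurableSet_Ioo hval

/-- integrability of the strip integrand -/
theorem intervalIntegrable_strip (m : ℕ) (hm : 1 ≤ m) (a : ℝ → ℝ) (ha : Prof a) (X t : ℝ) :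
    IntervalIntegrable (fun τ => wt m τ * (2 * (Real.pi - a τ) * (Real.log 2 - t - τ) +
      LL (a τ) X (t - τ))) volume 0 10 := by
  rw [intervalIntegrable_iff_integrableOn_Ioo_of_le (by norm_num)]
  exact (strip_core m hm a ha X t).1

/-- integrability of the logarithmic part -/
theorem intervalIntegrable_LL (m : ℕ) (hm : 1 ≤ m) (a : ℝ → ℝ) (ha : Prof a) (X t : ℝ) :
    IntervalIntegrable (fun τ => wt m τ * LL (a τ) X (t - τ)) volume 0 10 := by
  have h1 := intervalIntegrable_strip m hm a ha X t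
  have hmeas : Measurable a := ha.mono.measurable
  have h2 : IntervalIntegrable (fun τ => wt m τ * (2 * (Real.pi - a τ) * (Real.log 2 - t - τ)))
      volume 0 10 := by
    have hb : IntervalIntegrable (fun τ => Real.pi - a τ) volume 0 10 :=
      intervalIntegrable_of_bdd (H := fun τ => Real.pi - a τ) (measurable_const.sub hmeas) π
        (fun τ => by
          rw [abs_of_nonneg (by linarith [ha.le_pi τ])]
          linarith [ha.nonneg τ]) 0 10
    have hc : Continuous (fun τ => wt m τ * (2 * (Real.log 2 - t - τ))) := by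
      unfold wt; fun_prop
    refine (hb.mul_continuousOn hc.continuousOn).congr ?_
    intro τ _
    simp only
    ring
  refine (h1.sub h2).congr ?_
  intro τ _
  simp only
  ring

/-- R3b: potential of the removed region at `pt m X t` -/
theorem pot_Aset (m : ℕ) (hm : 1 ≤ m) (a : ℝ → ℝ) (ha : Prof a) (X t : ℝ) :
    pot (Aset m a) (pt m X t) = (1 / (4 * Real.pi * m ^ 2)) *
      ∫ τ in (0:ℝ)..10, wt m τ * (2 * (Real.pi - a τ) * (Real.log 2 - t - τ) +
        LL (a τ) X (t - τ)) := by
  have hm1 : (1:ℝ) ≤ m := by exact_mod_cast hm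
  have hm0 : (0:ℝ) < m := by linarith
  have hπ := Real.pi_pos
  unfold pot
  rw [(strip_core m hm a ha X t).2, intervalIntegral.integral_of_le (by norm_num),
    integral_Ioc_eq_integral_Ioo]
  unfold stripInt
  field_simp
  ring

end

end Pool.Agent.Helper87.VS
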