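import Pool.Agent.Helper87.VS.PotBall
import Pool.Agent.Helper87.VS.PotAset

/-!
# MP_539ca6_an, R3c: the relative stream function in strip coordinates
-/

open MeasureTheory Set

namespace Pool.Agent.Helper87.VS

open Pool.Agent.Helper90.VS

noncomputable section

open scoped Real

theorem Lam_neg_left (s x : ℝ) : Lam (-s) x = Lam s x := by
  unfold Lam; rw [Real.cosh_neg]

theorem Lam_neg_right (s x : ℝ) : Lam s (-x) = Lam s x := by
  unfold Lam; rw [Real.cos_neg]

theorem LL_neg_s (a X s : ℝ) : LL a X (-s) = LL a X s := by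
  unfold LL
  simp only [Lam_neg_left]

theorem LL_neg_X (a X s : ℝ) : LL a (-X) s = LL a X s := by
  unfold LL
  refine intervalIntegral.integral_congr ?_
  intro x _
  simp only
  rw [← Lam_neg_right s (-X - x), ← Lam_neg_right s (-X + x)]
  have e1 : -(-X - x) = X + x := by ring
  have e2 : -(-X + x) = X - x := by ring
  rw [e1, e2, add_comm]

theorem LL_abs_X (a X s : ℝ) : LL a |X| s = LL a X s := by
  rcases abs_choice X with h | h
  · rw [h]
  · rw [h, LL_neg_X]

/-- the Poisson integral -/
theorem integral_lam (s : ℝ) (hs : 0 < s) : ∫ x in (0:ℝ)..π, lam s x = π := by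
  set r : ℝ := Real.exp (-s) with hr
  have hr0 : 0 < r := Real.exp_pos _
  have hr1 : r < 1 := by rw [hr, Real.exp_lt_one_iff]; linarith
  have hD : ∀ x : ℝ, 0 < 1 - r * Real.cos x := by
    intro x
    nlinarith [Real.cos_le_one x]
  have hden : ∀ x : ℝ, 0 < Real.cosh s - Real.cos x := by
    intro x
    have h1 : 1 < Real.cosh s := Real.one_lt_cosh.2 hs.ne'
    linarith [Real.cos_le_one x]
  have hlam : ∀ x : ℝ, lam s x = (1 - r ^ 2) / (1 - 2 * r * Real.cos x + r ^ 2) := by
    intro x
    have hp : Real.exp s * r = 1 := by rw [hr, ← Real.exp_add]; simp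
    have hes : Real.exp s = 1 / r := by field_simp; linarith
    have hq : 0 < 1 - 2 * r * Real.cos x + r ^ 2 := by
      nlinarith [Real.cos_le_one x, hD x, sq_nonneg (1 - r)]
    unfold lam
    rw [div_eq_div_iff (hden x).ne' hq.ne', Real.sinh_eq, Real.cosh_eq, ← hr, hes]
    field_simp
    ring
  have hderiv : ∀ x ∈ uIcc (0:ℝ) π, HasDerivAt
      (fun x : ℝ => x + 2 * Real.arctan (r * Real.sin x / (1 - r * Real.cos x))) (lam s x) x := by
    intro x _
    have h1 : HasDerivAt (fun x : ℝ => r * Real.sin x / (1 - r * Real.cos x))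
        ((r * Real.cos x * (1 - r * Real.cos x) - r * Real.sin x * (-(r * -Real.sin x))) /
          (1 - r * Real.cos x) ^ 2) x :=
      ((Real.hasDerivAt_sin x).const_mul r).div
        (((Real.hasDerivAt_cos x).const_mul r).const_sub 1) (hD x).ne'
    have h2 := (hasDerivAt_id' x).add ((h1.arctan).const_mul 2)
    have s1 := Real.sin_sq_add_cos_sq x
    have hq : 0 < 1 - 2 * r * Real.cos x + r ^ 2 := by
      nlinarith [Real.cos_le_one x, hD x, sq_nonneg (1 - r)]
    have hD' := hD x
    have e1 : 1 + (r * Real.sin x / (1 - r * Real.cos x)) ^ 2 =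
        (1 - 2 * r * Real.cos x + r ^ 2) / (1 - r * Real.cos x) ^ 2 := by
      rw [eq_div_iff (by positivity), div_pow, add_mul, div_mul_cancel₀ _ (by positivity)]
      linear_combination r ^ 2 * s1
    have e2 : r * Real.cos x * (1 - r * Real.cos x) - r * Real.sin x * (-(r * -Real.sin x)) =
        r * Real.cos x - r ^ 2 := by
      linear_combination (-r ^ 2) * s1
    have e3 : 1 + 2 * (1 / (1 + (r * Real.sin x / (1 - r * Real.cos x)) ^ 2) *
        ((r * Real.cos x * (1 - r * Real.cos x) - r * Real.sin x * (-(r * -Real.sin x))) /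
          (1 - r * Real.cos x) ^ 2)) = lam s x := by
      rw [hlam x, e1, e2]
      field_simp
      ring
    rw [e3] at h2
    exact h2
  have hcont : Continuous (lam s) := by
    unfold lam
    exact continuous_const.div (by fun_prop) (fun x => (hden x).ne')
  rw [intervalIntegral.integral_eq_sub_of_hasDerivAt hderiv (hcont.intervalIntegrable _ _)]
  simp

theorem GG_zero_eq (b s : ℝ) : GG b 0 s = ∫ x in b..π, 2 * lam s x := by
  unfold GG
  refine intervalIntegral.integral_congr ?_
  intro x _
  simp only [zero_sub, zero_add]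
  have : lam s (-x) = lam s x := by unfold lam; rw [Real.cos_neg]
  rw [this]; ring

theorem GG_bound (b s : ℝ) (hb : 0 ≤ b) (hbπ : b ≤ π) (hs : 0 < s) :
    0 ≤ GG b 0 s ∧ GG b 0 s ≤ 2 * π := by
  have hden : ∀ x : ℝ, 0 < Real.cosh s - Real.cos x := by
    intro x
    have h1 : 1 < Real.cosh s := Real.one_lt_cosh.2 hs.ne'
    linarith [Real.cos_le_one x]
  have hcont : Continuous (fun x => 2 * lam s x) := by
    unfold lam
    exact continuous_const.mul (continuous_const.div (by fun_prop) (fun x => (hden x).ne'))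
  have hnn : ∀ x, 0 ≤ 2 * lam s x := by
    intro x
    unfold lam
    have := Real.sinh_pos_iff.2 hs
    have := hden x
    positivity
  rw [GG_zero_eq]
  constructor
  · exact intervalIntegral.integral_nonneg hbπ (fun x _ => hnn x)
  · have h1 := integral_lam s hs
    have h2 : (∫ x in (0:ℝ)..π, 2 * lam s x) = 2 * π := by
      rw [intervalIntegral.integral_const_mul, h1]
    rw [← h2, ← intervalIntegral.integral_add_adjacent_intervals
      (hcont.intervalIntegrable 0 b) (hcont.intervalIntegrable b π)]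
    have := intervalIntegral.integral_nonneg (μ := volume) hb (fun x _ => hnn x)
    linarith

theorem measurable_GG {a : ℝ → ℝ} (ha : Prof a) : Measurable (fun τ => GG (a τ) 0 τ) := by
  have hmeas : Measurable a := ha.mono.measurable
  have h1 : (fun τ => GG (a τ) 0 τ) = fun τ => ∫ x,
      ({p : ℝ × ℝ | a p.1 < p.2 ∧ p.2 ≤ π}).indicator (fun p => 2 * lam p.1 p.2) (τ, x) := by
    funext τ
    rw [GG_zero_eq, intervalIntegral.integral_of_le (ha.le_pi τ), ← integral_indicator
      measurableSet_Ioc]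
    refine integral_congr_ae (Filter.Eventually.of_forall ?_)
    intro x
    simp only
    by_cases h : a τ < x ∧ x ≤ π
    · rw [indicator_of_mem (show x ∈ Ioc (a τ) π from h), indicator_of_mem]
      exact h
    · rw [indicator_of_notMem (show x ∉ Ioc (a τ) π from h), indicator_of_notMem]
      exact h
  rw [h1]
  have hset : MeasurableSet {p : ℝ × ℝ | a p.1 < p.2 ∧ p.2 ≤ π} :=
    (measurableSet_lt (hmeas.comp measurable_fst) measurable_snd).inter
      (measurableSet_le measurable_snd measurable_const)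
  have hfun : Measurable (fun p : ℝ × ℝ => 2 * lam p.1 p.2) := by
    unfold lam
    have h2 : Measurable (fun p : ℝ × ℝ => Real.sinh p.1) := by fun_prop
    have h3 : Measurable (fun p : ℝ × ℝ => Real.cosh p.1 - Real.cos p.2) := by fun_prop
    exact (h2.div h3).const_mul 2
  have h4 := (hfun.indicator hset).stronglyMeasurable.integral_prod_right' (ν := volume)
  exact h4.measurable

theorem intervalIntegrable_GG (m : ℕ) (a : ℝ → ℝ) (ha : Prof a) :
    IntervalIntegrable (fun τ => wt m τ * GG (a τ) 0 τ) volume 0 10 := by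
  have hc : Continuous (wt m) := by unfold wt; fun_prop
  have h1 : IntervalIntegrable (fun τ => GG (a τ) 0 τ) volume 0 10 := by
    refine (intervalIntegrable_const (c := 2 * π)).mono_fun' (measurable_GG ha).aestronglyMeasurable
      ?_
    rw [uIoc_of_le (by norm_num)]
    refine (ae_restrict_mem measurableSet_Ioc).mono ?_
    intro τ hτ
    have := GG_bound (a τ) τ (ha.nonneg τ) (ha.le_pi τ) hτ.1
    simp only [Real.norm_eq_abs]
    rw [abs_of_nonneg this.1]
    exact this.2
  exact (h1.mul_continuousOn hc.continuousOn).congr (fun τ _ => by ring)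

theorem intervalIntegrable_pi_sub (m : ℕ) (a : ℝ → ℝ) (ha : Prof a) :
    IntervalIntegrable (fun τ => wt m τ * (2 * (π - a τ))) volume 0 10 := by
  have hmeas : Measurable a := ha.mono.measurable
  have hc : Continuous (fun τ => wt m τ * 2) := by unfold wt; fun_prop
  have hb : IntervalIntegrable (fun τ => Real.pi - a τ) volume 0 10 :=
    intervalIntegrable_of_bdd (H := fun τ => Real.pi - a τ) (measurable_const.sub hmeas) π
      (fun τ => by
        rw [abs_of_nonneg (by linarith [ha.le_pi τ])]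
        linarith [ha.nonneg τ]) 0 10
  exact (hb.mul_continuousOn hc.continuousOn).congr (fun τ _ => by ring)

/-- R3c: conclusion -/
theorem FF_pt (m : ℕ) (hm : 1 ≤ m) (a : ℝ → ℝ) (ha : Prof a) (X t : ℝ)
    (ht : t ∈ Icc (0:ℝ) 10) :
    (m:ℝ) ^ 2 * FF m a (pt m X t) = Phi m a |X| t := by
  have hm1 : (1:ℝ) ≤ m := by exact_mod_cast hm
  have hm0 : (0:ℝ) < m := by linarith
  have hπ := Real.pi_pos
  -- potentials of D0
  have hD0 : ∀ x : ℂ, pot (D0 m a) x = pot (Metric.ball 0 1) x - pot (Aset m a) x := by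
    intro x
    unfold pot D0
    rw [setIntegral_sdiff (measurableSet_Aset m ha) (integrableOn_log_norm_sub x Metric.isBounded_ball)
      (Aset_subset_ball m a)]
    ring
  have h1 : (1:ℂ) = pt m 0 0 := by unfold pt; simp
  have hn1 : ‖pt m X t‖ ≤ 1 := by
    rw [norm_pt, Real.exp_le_one_iff]
    have : 0 ≤ t / m := div_nonneg ht.1 hm0.le
    linarith
  have hn0 : ‖pt m 0 0‖ ≤ 1 := by rw [norm_pt]; simp
  unfold FF
  rw [hD0, hD0, h1, pot_ball _ hn1, pot_ball _ hn0, pot_Aset m hm a ha, pot_Aset m hm a ha,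
    norm_pt, norm_pt]
  have e1 : Real.exp (-(t / m)) ^ 2 = Real.exp (-(2 * t / m)) := by
    rw [← Real.exp_nat_mul]; congr 1; push_cast; ring
  have e2 : Real.exp (-((0:ℝ) / m)) = 1 := by simp
  rw [e1, e2]
  have e3 : Real.exp (-(2 * t / m)) = 1 - 2 / m * th m t := by
    unfold th
    field_simp
    ring
  rw [e3]
  unfold Phi PhiI Om sig
  -- integrals
  have iA := intervalIntegrable_strip m hm a ha X t
  have iB := intervalIntegrable_strip m hm a ha 0 0
  have iL := intervalIntegrable_LL m hm a ha X t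
  have iL0 : IntervalIntegrable (fun τ => wt m τ * LL (a τ) 0 τ) volume 0 10 := by
    have := intervalIntegrable_LL m hm a ha 0 0
    refine this.congr ?_
    intro τ _
    simp only
    rw [zero_sub, LL_neg_s]
  have iG := intervalIntegrable_GG m a ha
  have iP := intervalIntegrable_pi_sub m a ha
  have k1 : (∫ τ in (0:ℝ)..10, wt m τ * (2 * (π - a τ) * (Real.log 2 - t - τ) +
      LL (a τ) X (t - τ))) - (∫ τ in (0:ℝ)..10, wt m τ * (2 * (π - a τ) * (Real.log 2 - 0 - τ) +
      LL (a τ) 0 (0 - τ))) =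
      (∫ τ in (0:ℝ)..10, wt m τ * LL (a τ) X (t - τ)) - (∫ τ in (0:ℝ)..10, wt m τ * LL (a τ) 0 τ) -
        t * ∫ τ in (0:ℝ)..10, wt m τ * (2 * (π - a τ)) := by
    rw [← intervalIntegral.integral_sub iA iB, ← intervalIntegral.integral_const_mul,
      ← intervalIntegral.integral_sub iL iL0,
      ← intervalIntegral.integral_sub (iL.sub iL0) (iP.const_mul t)]
    refine intervalIntegral.integral_congr ?_
    intro τ _
    simp only
    rw [zero_sub, LL_neg_s]
    ring
  have k2 : (∫ τ in (0:ℝ)..10, wt m τ * (LL (a τ) |X| (t - τ) - LL (a τ) 0 τ +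
      t * GG (a τ) 0 τ)) =
      (∫ τ in (0:ℝ)..10, wt m τ * LL (a τ) X (t - τ)) - (∫ τ in (0:ℝ)..10, wt m τ * LL (a τ) 0 τ) +
        t * ∫ τ in (0:ℝ)..10, wt m τ * GG (a τ) 0 τ := by
    rw [← intervalIntegral.integral_sub iL iL0, ← intervalIntegral.integral_const_mul,
      ← intervalIntegral.integral_add (iL.sub iL0) (iG.const_mul t)]
    refine intervalIntegral.integral_congr ?_
    intro τ _
    simp only
    rw [LL_abs_X]
    ring
  have k3 : (∫ τ in (0:ℝ)..10, wt m τ * (2 * (π - a τ) + GG (a τ) 0 τ)) =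
      (∫ τ in (0:ℝ)..10, wt m τ * (2 * (π - a τ))) +
        ∫ τ in (0:ℝ)..10, wt m τ * GG (a τ) 0 τ := by
    rw [← intervalIntegral.integral_add iP iG]
    refine intervalIntegral.integral_congr ?_
    intro τ _
    simp only
    ring
  rw [k2, k3]
  set IA := ∫ τ in (0:ℝ)..10, wt m τ * (2 * (π - a τ) * (Real.log 2 - t - τ) +
      LL (a τ) X (t - τ))
  set IB := ∫ τ in (0:ℝ)..10, wt m τ * (2 * (π - a τ) * (Real.log 2 - 0 - τ) +
      LL (a τ) 0 (0 - τ))
  set J1 := ∫ τ in (0:ℝ)..10, wt m τ * LL (a τ) X (t - τ)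
  set J0 := ∫ τ in (0:ℝ)..10, wt m τ * LL (a τ) 0 τ
  set JG := ∫ τ in (0:ℝ)..10, wt m τ * GG (a τ) 0 τ
  set JP := ∫ τ in (0:ℝ)..10, wt m τ * (2 * (π - a τ))
  have k4 : IA = IB + (J1 - J0 - t * JP) := by linarith
  rw [k4]
  field_simp
  ring

end

end Pool.Agent.Helper87.VS
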