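import Pool.Agent.Helper87.VS.PhiZero

/-!
# MP_539ca6_an, A5
-/

open MeasureTheory Set Filter Topology

namespace Pool.Agent.Helper87.VS

open Pool.Agent.Helper90.VS

theorem GG_lower {a v : ℝ} (ha : a ∈ Icc 0 Real.pi) (hv : 0 < v) :
    2 * (Real.pi - a) * (Real.sinh v / (Real.cosh v + 1)) ≤ GG a 0 v := by
  have hc : 0 < Real.cosh v + 1 := by have := Real.cosh_pos v; linarith
  have hs : 0 < Real.sinh v := Real.sinh_pos_iff.2 hv
  have hlam : ∀ x, Real.sinh v / (Real.cosh v + 1) ≤ lam v x := by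
    intro x
    unfold lam
    apply div_le_div_of_nonneg_left hs.le (den_pos hv.ne' x)
    linarith [Real.neg_one_le_cos x]
  unfold GG
  have e : 2 * (Real.pi - a) * (Real.sinh v / (Real.cosh v + 1)) =
      ∫ _ in a..Real.pi, 2 * (Real.sinh v / (Real.cosh v + 1)) := by
    rw [intervalIntegral.integral_const, smul_eq_mul]; ring
  rw [e]
  apply intervalIntegral.integral_mono_on ha.2 intervalIntegrable_const
    (intervalIntegrable_lam _ _ _ _)
  intro x _
  have h1 := hlam (0 - x)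
  have h2 := hlam (0 + x)
  linarith

theorem LL_mono {a v₁ v₂ : ℝ} (ha : a ∈ Icc 0 Real.pi) (h1 : 0 < v₁) (h12 : v₁ ≤ v₂) :
    LL a 0 v₁ ≤ LL a 0 v₂ := by
  have h := LL_sub a 0 h1 (h1.trans_le h12)
  have : 0 ≤ ∫ v in v₁..v₂, GG a 0 v := by
    apply intervalIntegral.integral_nonneg h12
    intro v hv
    exact GG_nonneg (h1.le.trans hv.1) ha.2 0
  linarith

theorem LL_sub_lower {a t : ℝ} (ha : a ∈ Icc 0 Real.pi) (ht : 0 < t) :
    t * (Real.pi - a) * (Real.sinh (t / 4) / (Real.cosh (t / 4) + 1)) ≤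
      LL a 0 (3 * t / 4) - LL a 0 (t / 4) := by
  rw [LL_sub a 0 (by positivity) (by positivity)]
  have h1 := GG_lower ha (v := t / 4) (by positivity)
  have e : t * (Real.pi - a) * (Real.sinh (t / 4) / (Real.cosh (t / 4) + 1)) =
      ∫ _ in (t/4)..(3 * t / 4), 2 * (Real.pi - a) * (Real.sinh (t / 4) / (Real.cosh (t / 4) + 1)) := by
    rw [intervalIntegral.integral_const, smul_eq_mul]; ring
  rw [e]
  have h3 : t / 4 ≤ 3 * t / 4 := by linarith
  apply intervalIntegral.integral_mono_on h3 intervalIntegrable_const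
  · apply ContinuousOn.intervalIntegrable
    rw [uIcc_of_le h3]
    intro v hv
    have : 0 < v := lt_of_lt_of_le (by positivity) hv.1
    exact (continuousAt_GG this.ne' a 0).continuousWithinAt
  · intro v hv
    exact h1.trans (GG_mono ha (by positivity) hv.1)

theorem antitone_avg {p : ℝ → ℝ} (hp : Antitone p) {s L : ℝ} (hs : 0 ≤ s) (hsL : s ≤ L) :
    s * ∫ τ in (0:ℝ)..L, p τ ≤ L * ∫ τ in (0:ℝ)..s, p τ := by
  have hi : ∀ b c, IntervalIntegrable p volume b c := fun b c => hp.intervalIntegrable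
  have h1 : (∫ τ in s..L, p τ) ≤ (L - s) * p s := by
    have : (∫ τ in s..L, p τ) ≤ ∫ _ in s..L, p s :=
      intervalIntegral.integral_mono_on hsL (hi _ _) intervalIntegrable_const
        (fun τ hτ => hp hτ.1)
    rwa [intervalIntegral.integral_const, smul_eq_mul] at this
  have h2 : s * p s ≤ ∫ τ in (0:ℝ)..s, p τ := by
    have : (∫ _ in (0:ℝ)..s, p s) ≤ ∫ τ in (0:ℝ)..s, p τ :=
      intervalIntegral.integral_mono_on hs intervalIntegrable_const (hi _ _)
        (fun τ hτ => hp hτ.2)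
    rw [intervalIntegral.integral_const, smul_eq_mul, sub_zero] at this
    exact this
  rw [← intervalIntegral.integral_add_adjacent_intervals (hi 0 s) (hi s L)]
  have h3 := mul_le_mul_of_nonneg_left h1 hs
  have h4 := mul_le_mul_of_nonneg_left h2 (show 0 ≤ L - s by linarith)
  nlinarith

theorem antitone_wa (m : ℕ) {a : ℝ → ℝ} (ha : Prof a) :
    Antitone (fun τ => wt m τ * (Real.pi - a τ)) := by
  intro x y h
  have h1 := antitone_wt m h
  have h2 := ha.mono h
  have h3 := ha.le_pi y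
  have h4 := wt_pos m x
  have h5 := wt_pos m y
  simp only
  nlinarith

theorem intble_wa (m : ℕ) {a : ℝ → ℝ} (ha : Prof a) (b c : ℝ) :
    IntervalIntegrable (fun τ => wt m τ * (Real.pi - a τ)) volume b c :=
  (antitone_wa m ha).intervalIntegrable

/-- the constant of part 1 -/
noncomputable def c3 (t : ℝ) : ℝ :=
  1 / (4 * Real.pi) * (t * (Real.sinh (t / 4) / (Real.cosh (t / 4) + 1)) * (t / 40))

theorem c3_pos {t : ℝ} (ht : 0 < t) : 0 < c3 t := by
  unfold c3
  have hpi := Real.pi_pos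
  have hc : 0 < Real.cosh (t / 4) + 1 := by have := Real.cosh_pos (t / 4); linarith
  have hs : 0 < Real.sinh (t / 4) := Real.sinh_pos_iff.2 (by positivity)
  positivity

theorem PhiI_zero_upper (m : ℕ) {a : ℝ → ℝ} (ha : Prof a) {t : ℝ} (ht : 0 < t)
    (ht2 : t ≤ 10) :
    PhiI m a 0 t ≤ -(c3 t * ∫ τ in (0:ℝ)..10, wt m τ * (Real.pi - a τ)) := by
  have hpi := Real.pi_pos
  set q : ℝ := Real.sinh (t / 4) / (Real.cosh (t / 4) + 1) with hq
  have hq0 : 0 < q := by
    have hc : 0 < Real.cosh (t / 4) + 1 := by have := Real.cosh_pos (t / 4); linarith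
    have hs : 0 < Real.sinh (t / 4) := Real.sinh_pos_iff.2 (by positivity)
    positivity
  have hI := intble_PhiI ha m 0 t
  have hW := intble_wa m ha
  have h1 : t * q * ∫ τ in (0:ℝ)..(t/4), wt m τ * (Real.pi - a τ) ≤
      ∫ τ in (0:ℝ)..10, wt m τ * (LL (a τ) 0 (t - τ) - LL (a τ) 0 τ + t * GG (a τ) 0 τ) := by
    rw [← intervalIntegral.integral_add_adjacent_intervals (hI 0 (t/4)) (hI (t/4) 10)]
    have h2 : 0 ≤ ∫ τ in (t/4)..10, wt m τ * (LL (a τ) 0 (t - τ) - LL (a τ) 0 τ +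
        t * GG (a τ) 0 τ) := by
      have h3 : (∫ τ in (t/4)..10, (0:ℝ)) ≤ ∫ τ in (t/4)..10, wt m τ * (LL (a τ) 0 (t - τ) -
          LL (a τ) 0 τ + t * GG (a τ) 0 τ) := by
        apply integral_mono_ne (by linarith) (by simp) (hI _ _) t
        intro τ hτ hne
        have h4 := bracket_nonneg ⟨ha.nonneg τ, ha.le_pi τ⟩ ht.le ht2
          (lt_of_lt_of_le (by positivity) hτ.1) hτ.2 hne
        exact mul_nonneg (wt_pos m τ).le h4
      simpa using h3
    have h4 : t * q * ∫ τ in (0:ℝ)..(t/4), wt m τ * (Real.pi - a τ) ≤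
        ∫ τ in (0:ℝ)..(t/4), wt m τ * (LL (a τ) 0 (t - τ) - LL (a τ) 0 τ + t * GG (a τ) 0 τ) := by
      rw [← intervalIntegral.integral_const_mul]
      apply integral_mono_ne (by positivity) ((hW _ _).const_mul _) (hI _ _) 0
      intro τ hτ hne
      have hτ0 : 0 < τ := lt_of_le_of_ne hτ.1 (Ne.symm hne)
      have haI : a τ ∈ Icc 0 Real.pi := ⟨ha.nonneg τ, ha.le_pi τ⟩
      have h5 := LL_sub_lower haI ht
      have h6 := LL_mono haI hτ0 hτ.2
      have h7 := LL_mono haI (v₁ := 3 * t / 4) (v₂ := t - τ) (by positivity) (by linarith [hτ.2])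
      have h8 := GG_nonneg hτ.1 haI.2 0
      have h9 : t * (Real.pi - a τ) * q ≤ LL (a τ) 0 (t - τ) - LL (a τ) 0 τ + t * GG (a τ) 0 τ := by
        have := mul_nonneg ht.le h8
        linarith
      calc t * q * (wt m τ * (Real.pi - a τ)) = wt m τ * (t * (Real.pi - a τ) * q) := by ring
        _ ≤ _ := mul_le_mul_of_nonneg_left h9 (wt_pos m τ).le
    linarith
  have h2 := antitone_avg (antitone_wa m ha) (s := t / 4) (L := 10) (by positivity) (by linarith)
  unfold PhiI
  have h3 : c3 t * ∫ τ in (0:ℝ)..10, wt m τ * (Real.pi - a τ) ≤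
      1 / (4 * Real.pi) * ∫ τ in (0:ℝ)..10, wt m τ * (LL (a τ) 0 (t - τ) - LL (a τ) 0 τ +
        t * GG (a τ) 0 τ) := by
    unfold c3
    rw [mul_assoc]
    apply mul_le_mul_of_nonneg_left _ (by positivity)
    refine le_trans ?_ h1
    rw [mul_assoc (t * _)]
    apply mul_le_mul_of_nonneg_left _ (by positivity)
    linarith
  linarith

/-- difference in `X`, case of a large profile -/
theorem diff_caseB (m : ℕ) {a : ℝ → ℝ} (ha : Prof a) {t x : ℝ} (ht : 0 < t)
    (hx : 0 ≤ x) (hx2 : x ≤ Real.pi / 4) (hB : Real.pi / 2 < a (t / 2)) :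
    Phi m a x t - Phi m a 0 t ≤ 1 / (4 * Real.pi) * (2 * x ^ 2 / min (1 / 4) (t ^ 2 / 8) *
      ∫ τ in (0:ℝ)..10, wt m τ * (Real.pi - a τ)) := by
  have hpi := Real.pi_pos
  set d : ℝ := min (1 / 4) (t ^ 2 / 8) with hd
  have hd0 : 0 < d := by rw [hd]; positivity
  rw [Phi_X_sub m ha 0 x t]
  apply mul_le_mul_of_nonneg_left _ (by positivity)
  rw [← intervalIntegral.integral_const_mul]
  apply integral_mono_ne (by norm_num)
    (intble_wt_mul m ((intble_LL ha 0 t 0 10).sub (intble_LL ha x t 0 10)))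
    ((intble_wa m ha 0 10).const_mul _) t
  intro τ hτ hne
  have hs : t - τ ≠ 0 := sub_ne_zero.2 (Ne.symm hne)
  have haI : a τ ∈ Icc 0 Real.pi := ⟨ha.nonneg τ, ha.le_pi τ⟩
  have hden : ∀ y ∈ Icc 0 x, d ≤ Real.cosh (t - τ) - Real.cos (y - a τ) := by
    intro y hy
    rcases le_or_gt (t / 2) τ with h | h
    · have h1 : Real.pi / 2 < a τ := hB.trans_le (ha.mono h)
      have h2 : Real.cos (y - a τ) ≤ Real.cos (Real.pi / 4) := by
        rw [← Real.cos_neg (y - a τ)]
        apply Real.cos_le_cos_of_nonneg_of_le_pi (by positivity)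
        · linarith [hy.1, haI.2]
        · linarith [hy.2]
      rw [Real.cos_pi_div_four] at h2
      have h3 : √2 ≤ 3 / 2 := by
        rw [Real.sqrt_le_left (by norm_num)]; norm_num
      have h4 := Real.one_le_cosh (t - τ)
      have h5 : d ≤ 1 / 4 := min_le_left _ _
      linarith
    · have h1 := den_lower (t - τ) (y - a τ)
      have h2 : t / 2 ≤ t - τ := by linarith
      have h3 : (t / 2) ^ 2 ≤ (t - τ) ^ 2 := pow_le_pow_left₀ (by positivity) h2 2
      have h5 : d ≤ t ^ 2 / 8 := min_le_right _ _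
      nlinarith
  have hinner : LL (a τ) 0 (t - τ) - LL (a τ) x (t - τ) ≤ 2 * x ^ 2 / d * (Real.pi - a τ) := by
    rw [LL_X_sub hs]
    have e : 2 * x ^ 2 / d * (Real.pi - a τ) = ∫ _ in (0:ℝ)..x, 2 * x * (Real.pi - a τ) / d := by
      rw [intervalIntegral.integral_const, smul_eq_mul, sub_zero]; ring
    rw [e]
    apply intervalIntegral.integral_mono_on hx
      ((continuous_Lam_diff hs (a τ)).intervalIntegrable _ _) intervalIntegrable_const
    intro y hy
    refine (Lam_diff_upper hs y (a τ)).trans ?_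
    have h1 : Real.sin y ≤ x := (Real.sin_le hy.1).trans hy.2
    have h2 : Real.sin (a τ) ≤ Real.pi - a τ := by
      rw [← Real.sin_pi_sub]
      exact Real.sin_le (by linarith [haI.2])
    have h3 : 0 ≤ Real.sin y := sin_nonneg_Icc ⟨hy.1, by linarith [hy.2]⟩
    have h4 := sin_a_nonneg ha τ
    apply div_le_div₀
    · have : 0 ≤ Real.pi - a τ := by linarith [haI.2]
      positivity
    · have h5 : Real.sin y * Real.sin (a τ) ≤ x * (Real.pi - a τ) :=
        mul_le_mul h1 h2 h4 hx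
      nlinarith
    · exact hd0
    · exact hden y hy
  calc wt m τ * (LL (a τ) 0 (t - τ) - LL (a τ) x (t - τ))
      ≤ wt m τ * (2 * x ^ 2 / d * (Real.pi - a τ)) :=
        mul_le_mul_of_nonneg_left hinner (wt_pos m τ).le
    _ = _ := by ring

/-- difference in `X`, general bound -/
theorem diff_caseA (m : ℕ) {a : ℝ → ℝ} (ha : Prof a) {t x : ℝ} (hx : 0 ≤ x) :
    Phi m a x t - Phi m a 0 t ≤ 1 / (4 * Real.pi) * (x *
      ∫ τ in (0:ℝ)..10, 2 * (|t - τ| + 2 * |Real.log (t - τ)| + 1)) := by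
  have hpi := Real.pi_pos
  rw [Phi_X_sub m ha 0 x t]
  apply mul_le_mul_of_nonneg_left _ (by positivity)
  rw [← intervalIntegral.integral_const_mul]
  have hlog : IntervalIntegrable (fun τ => Real.log (t - τ)) volume 0 10 := by
    have := (intervalIntegral.intervalIntegrable_log' (a := t - 0) (b := t - 10)).comp_sub_left t
    simpa using this
  have hC : IntervalIntegrable (fun τ => 2 * (|t - τ| + 2 * |Real.log (t - τ)| + 1)) volume 0 10 := by
    refine ((((Continuous.intervalIntegrable (by fun_prop) _ _).add (hlog.abs.const_mul 2)).add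
      intervalIntegrable_const).const_mul 2)
  apply integral_mono_ne (by norm_num)
    (intble_wt_mul m ((intble_LL ha 0 t 0 10).sub (intble_LL ha x t 0 10)))
    (hC.const_mul _) t
  intro τ hτ hne
  have hs : t - τ ≠ 0 := sub_ne_zero.2 (Ne.symm hne)
  have hinner : |LL (a τ) 0 (t - τ) - LL (a τ) x (t - τ)| ≤
      x * (2 * (|t - τ| + 2 * |Real.log (t - τ)| + 1)) := by
    rw [LL_X_sub hs]
    have h1 := intervalIntegral.norm_integral_le_of_norm_le_const (a := (0:ℝ)) (b := x)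
      (f := fun y => Lam (t - τ) (y + a τ) - Lam (t - τ) (y - a τ))
      (C := 2 * (|t - τ| + 2 * |Real.log (t - τ)| + 1)) (by
        intro y _
        have h2 := Lam_abs_le hs (y + a τ)
        have h3 := Lam_abs_le hs (y - a τ)
        rw [Real.norm_eq_abs]
        calc |Lam (t - τ) (y + a τ) - Lam (t - τ) (y - a τ)|
            ≤ |Lam (t - τ) (y + a τ)| + |Lam (t - τ) (y - a τ)| := abs_sub _ _
          _ ≤ _ := by linarith)
    rw [Real.norm_eq_abs, sub_zero, abs_of_nonneg hx] at h1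
    linarith
  have h5 := wt_le_one m hτ.1
  have h6 := wt_pos m τ
  have h7 := le_abs_self (LL (a τ) 0 (t - τ) - LL (a τ) x (t - τ))
  have h8 : 0 ≤ |LL (a τ) 0 (t - τ) - LL (a τ) x (t - τ)| := abs_nonneg _
  nlinarith

/-- A5' -/
theorem Phi_neg_small (t₀ : ℝ) (ht : t₀ ∈ Ioc (0:ℝ) 10) : ∃ x₁ ∈ Ioc 0 (Real.pi / 4), ∀ κ > 0,
    ∃ m₀ : ℕ, ∀ m ≥ m₀, ∀ a, Prof a → κ ≤ mass a → Phi m a x₁ t₀ < 0 := by
  obtain ⟨ht0, ht10⟩ := ht
  have hpi := Real.pi_pos
  have hc3 := c3_pos ht0
  set C : ℝ := ∫ τ in (0:ℝ)..10, 2 * (|t₀ - τ| + 2 * |Real.log (t₀ - τ)| + 1) with hC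
  have hC0 : 0 ≤ C := by
    rw [hC]
    apply intervalIntegral.integral_nonneg (by norm_num)
    intro τ _
    positivity
  set M1 : ℝ := Real.exp (-20) * (Real.pi / 2) * (t₀ / 2) with hM1
  have hM1p : 0 < M1 := by rw [hM1]; positivity
  set d : ℝ := min (1 / 4) (t₀ ^ 2 / 8) with hd
  have hd0 : 0 < d := by rw [hd]; positivity
  set x₁ : ℝ := min (Real.pi / 4) (min (Real.pi * d * c3 t₀) (2 * Real.pi * c3 t₀ * M1 / (C + 1)))
    with hx₁
  have hx0 : 0 < x₁ := by rw [hx₁]; positivity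
  have hxpi : x₁ ≤ Real.pi / 4 := min_le_left _ _
  have hxB : x₁ ≤ Real.pi * d * c3 t₀ := (min_le_right _ _).trans (min_le_left _ _)
  have hxA : x₁ ≤ 2 * Real.pi * c3 t₀ * M1 / (C + 1) := (min_le_right _ _).trans (min_le_right _ _)
  have hx1 : x₁ ≤ 1 := by linarith [Real.pi_lt_four]
  refine ⟨x₁, ⟨hx0, hxpi⟩, fun κ hκ => ?_⟩
  obtain ⟨n, hn⟩ := exists_nat_gt (10 * t₀ ^ 2 / (c3 t₀ / 2 * (Real.exp (-20) * κ)))
  refine ⟨n + 1, fun m hm a ha hmass => ?_⟩
  have hm1 : 1 ≤ m := by omega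
  have hm' : (0:ℝ) < m := by exact_mod_cast hm1
  have hmn : (n:ℝ) ≤ m := by exact_mod_cast (by omega : n ≤ m)
  set M : ℝ := ∫ τ in (0:ℝ)..10, wt m τ * (Real.pi - a τ) with hM
  have hW := intble_wa m ha
  -- lower bound for M
  have hMκ : Real.exp (-20) * κ ≤ M := by
    have h1 : Real.exp (-20) * mass a ≤ M := by
      refine (mass_wt_ge m hm1 ha).trans ?_
      rw [hM]
      apply intervalIntegral.integral_mono_on (by norm_num) (intble_wt_mul m (intble_sin ha 0 10))
        (hW 0 10)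
      intro τ _
      apply mul_le_mul_of_nonneg_left _ (wt_pos m τ).le
      rw [← Real.sin_pi_sub]
      exact Real.sin_le (by linarith [ha.le_pi τ])
    have h2 := mul_le_mul_of_nonneg_left hmass (Real.exp_pos (-20)).le
    linarith
  have hMp : 0 < M := lt_of_lt_of_le (by positivity) hMκ
  have hdiff : Phi m a x₁ t₀ - Phi m a 0 t₀ ≤ c3 t₀ / 2 * M := by
    rcases le_or_gt (a (t₀ / 2)) (Real.pi / 2) with hA | hB
    · have h1 := diff_caseA m ha (t := t₀) (x := x₁) hx0.le
      have h2 : M1 ≤ M := by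
        rw [hM, ← intervalIntegral.integral_add_adjacent_intervals (hW 0 (t₀/2)) (hW (t₀/2) 10)]
        have h3 : M1 ≤ ∫ τ in (0:ℝ)..(t₀/2), wt m τ * (Real.pi - a τ) := by
          have e : M1 = ∫ _ in (0:ℝ)..(t₀/2), Real.exp (-20) * (Real.pi / 2) := by
            rw [intervalIntegral.integral_const, smul_eq_mul, hM1]; ring
          rw [e]
          apply intervalIntegral.integral_mono_on (by positivity) intervalIntegrable_const (hW _ _)
          intro τ hτ
          have h4 := ha.mono hτ.2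
          have h5 := wt_ge hm1 (show τ ≤ 10 by linarith [hτ.2])
          have h6 := wt_pos m τ
          calc Real.exp (-20) * (Real.pi / 2) ≤ wt m τ * (Real.pi / 2) :=
                mul_le_mul_of_nonneg_right h5 (by positivity)
            _ ≤ _ := mul_le_mul_of_nonneg_left (by linarith) h6.le
        have h4 : 0 ≤ ∫ τ in (t₀/2)..10, wt m τ * (Real.pi - a τ) := by
          apply intervalIntegral.integral_nonneg (by linarith)
          intro τ _
          exact mul_nonneg (wt_pos m τ).le (by linarith [ha.le_pi τ])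
        linarith
      have h3 : x₁ * C ≤ 2 * Real.pi * c3 t₀ * M := by
        have h4 : x₁ * (C + 1) ≤ 2 * Real.pi * c3 t₀ * M1 := by
          rwa [le_div_iff₀ (by positivity)] at hxA
        have h5 : 2 * Real.pi * c3 t₀ * M1 ≤ 2 * Real.pi * c3 t₀ * M :=
          mul_le_mul_of_nonneg_left h2 (by positivity)
        nlinarith
      have h4 := mul_le_mul_of_nonneg_left h3 (show (0:ℝ) ≤ 1 / (4 * Real.pi) by positivity)
      have h5 : 1 / (4 * Real.pi) * (2 * Real.pi * c3 t₀ * M) = c3 t₀ / 2 * M := by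
        field_simp
        norm_num
      rw [h5] at h4
      exact h1.trans h4
    · have h1 := diff_caseB m ha ht0 hx0.le hxpi hB
      have h2 : x₁ ^ 2 ≤ Real.pi * d * c3 t₀ := by nlinarith
      have h3 : 2 * x₁ ^ 2 / d * M ≤ 2 * Real.pi * c3 t₀ * M := by
        apply mul_le_mul_of_nonneg_right _ hMp.le
        rw [div_le_iff₀ hd0]
        linarith
      have h4 := mul_le_mul_of_nonneg_left h3 (show (0:ℝ) ≤ 1 / (4 * Real.pi) by positivity)
      have h5 : 1 / (4 * Real.pi) * (2 * Real.pi * c3 t₀ * M) = c3 t₀ / 2 * M := by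
        field_simp
        norm_num
      rw [h5] at h4
      exact h1.trans h4
  have h0 := PhiI_zero_upper m ha ht0 ht10
  have hs := sig_le m ha
  have hs0 := sig_nonneg m ha
  have hth := sub_th_le m hm1 ht0.le
  have h2 : sig m a * (t₀ - th m t₀) ≤ 10 * (t₀ ^ 2 / m) := by
    calc sig m a * (t₀ - th m t₀) ≤ sig m a * (t₀ ^ 2 / m) := mul_le_mul_of_nonneg_left hth hs0
      _ ≤ _ := mul_le_mul_of_nonneg_right hs (by positivity)
  have h3 : 10 * (t₀ ^ 2 / (m:ℝ)) < c3 t₀ / 2 * M := by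
    have h4 : 10 * t₀ ^ 2 < c3 t₀ / 2 * (Real.exp (-20) * κ) * m := by
      rw [div_lt_iff₀ (by positivity)] at hn
      have : c3 t₀ / 2 * (Real.exp (-20) * κ) * n ≤ c3 t₀ / 2 * (Real.exp (-20) * κ) * m :=
        mul_le_mul_of_nonneg_left hmn (by positivity)
      linarith
    have h5 : 10 * (t₀ ^ 2 / (m:ℝ)) < c3 t₀ / 2 * (Real.exp (-20) * κ) := by
      rw [← mul_div_assoc, div_lt_iff₀ hm']
      exact h4
    have h6 : c3 t₀ / 2 * (Real.exp (-20) * κ) ≤ c3 t₀ / 2 * M :=
      mul_le_mul_of_nonneg_left hMκ (by positivity)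
    linarith
  have h4 : Phi m a 0 t₀ = PhiI m a 0 t₀ + sig m a * (t₀ - th m t₀) := rfl
  linarith

end Pool.Agent.Helper87.VS
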