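import Pool.Agent.Helper90.VS.PhiB

/-!
# MP_539ca6_an, A6 and A7
-/

open MeasureTheory Set Filter Topology

namespace Pool.Agent.Helper87.VS

open Pool.Agent.Helper90.VS

/-- quantitative convexity of `LL` -/
theorem LL_convex {a s τ : ℝ} (ha : a ∈ Icc 0 Real.pi) (hs : 0 < s) (hs2 : s ≤ 20) (hτ : 0 < τ)
    (hτ2 : τ ≤ 20) :
    LL a 0 τ + (s - τ) * GG a 0 τ + Real.sin a / (Real.cosh 20 + 1) * (s - τ) ^ 2 ≤ LL a 0 s := by
  set k : ℝ := 2 * Real.sin a / (Real.cosh 20 + 1) with hk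
  have h1 : LL a 0 s - LL a 0 τ = ∫ v in τ..s, GG a 0 v := LL_sub a 0 hτ hs
  have hGc : ∀ c d, 0 < c → 0 < d → IntervalIntegrable (fun v => GG a 0 v) volume c d := by
    intro c d hc hd
    apply ContinuousOn.intervalIntegrable
    intro v hv
    have : 0 < v := lt_of_lt_of_le (lt_min hc hd) hv.1
    exact (continuousAt_GG this.ne' a 0).continuousWithinAt
  have hlin : ∀ c d, IntervalIntegrable (fun v : ℝ => GG a 0 τ + k * (v - τ)) volume c d :=
    fun c d => Continuous.intervalIntegrable (by fun_prop) _ _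
  have hval : (∫ v in τ..s, (GG a 0 τ + k * (v - τ))) = (s - τ) * GG a 0 τ + k * (s - τ) ^ 2 / 2 := by
    have hd : ∀ v ∈ uIcc τ s, HasDerivAt (fun v : ℝ => v * GG a 0 τ + k * (v - τ) ^ 2 / 2)
        (GG a 0 τ + k * (v - τ)) v := by
      intro v _
      have h2 : HasDerivAt (fun v : ℝ => v * GG a 0 τ + k * (v - τ) ^ 2 / 2)
        (1 * GG a 0 τ + k * (((2:ℕ):ℝ) * (v - τ) ^ (2 - 1) * 1) / 2) v :=
        ((hasDerivAt_id' v).mul_const _).add
          (((((hasDerivAt_id' v).sub_const τ).pow 2).const_mul k).div_const 2)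
      convert h2 using 1
      push_cast
      ring
    rw [intervalIntegral.integral_eq_sub_of_hasDerivAt hd (hlin _ _)]
    ring
  have hmain : (∫ v in τ..s, (GG a 0 τ + k * (v - τ))) ≤ ∫ v in τ..s, GG a 0 v := by
    rcases le_total τ s with h | h
    · apply intervalIntegral.integral_mono_on h (hlin _ _) (hGc τ s hτ hs)
      intro v hv
      have := GG_mono_slope ha hτ hv.1 (hv.2.trans hs2)
      linarith
    · rw [intervalIntegral.integral_symm, intervalIntegral.integral_symm s τ (f := fun v => GG a 0 v)]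
      apply neg_le_neg
      apply intervalIntegral.integral_mono_on h (hGc s τ hs hτ) (hlin _ _)
      intro v hv
      have h3 := GG_mono_slope ha (hs.trans_le hv.1) hv.2 hτ2
      nlinarith
  rw [hval, ← h1] at hmain
  have e : Real.sin a / (Real.cosh 20 + 1) * (s - τ) ^ 2 = k * (s - τ) ^ 2 / 2 := by
    rw [hk]; ring
  rw [e]
  linarith

/-- the bracket of `PhiI` at `X = 0` -/
theorem bracket_lower {a t τ : ℝ} (ha : a ∈ Icc 0 Real.pi) (ht : 0 ≤ t) (ht2 : t ≤ 10)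
    (hτ : 0 < τ) (hτ2 : τ ≤ 10) (hne : τ ≠ t) :
    Real.sin a / (Real.cosh 20 + 1) * (|t - τ| - τ) ^ 2 + (|t - τ| - τ + t) * GG a 0 τ ≤
      LL a 0 (t - τ) - LL a 0 τ + t * GG a 0 τ := by
  have hs : 0 < |t - τ| := abs_pos.2 (sub_ne_zero.2 hne.symm)
  have hs2 : |t - τ| ≤ 20 := by rw [abs_le]; constructor <;> linarith
  have h1 := LL_convex ha hs hs2 hτ (by linarith)
  have h2 : LL a 0 |t - τ| = LL a 0 (t - τ) := by
    rcases abs_choice (t - τ) with h | h
    · rw [h]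
    · rw [h, LL_neg]
  rw [h2] at h1
  linarith

theorem bracket_nonneg {a t τ : ℝ} (ha : a ∈ Icc 0 Real.pi) (ht : 0 ≤ t) (ht2 : t ≤ 10)
    (hτ : 0 < τ) (hτ2 : τ ≤ 10) (hne : τ ≠ t) :
    0 ≤ LL a 0 (t - τ) - LL a 0 τ + t * GG a 0 τ := by
  refine le_trans ?_ (bracket_lower ha ht ht2 hτ hτ2 hne)
  have h1 := GG_nonneg hτ.le ha.2 0
  have h2 : 0 ≤ |t - τ| - τ + t := by
    have := neg_abs_le (t - τ)
    linarith
  have h3 := sin_nonneg_Icc ha
  have h4 : (0:ℝ) < Real.cosh 20 + 1 := by have := Real.cosh_pos 20; linarith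
  positivity

theorem sub_th_le (m : ℕ) (hm : 1 ≤ m) {t : ℝ} (ht : 0 ≤ t) : t - th m t ≤ t ^ 2 / m := by
  have hm' : (0:ℝ) < m := by exact_mod_cast hm
  rw [th_eq m hm]
  have h1 : (∫ v in (0:ℝ)..t, (1 - 2 / m * v)) ≤ ∫ v in (0:ℝ)..t, wt m v := by
    apply intervalIntegral.integral_mono_on ht (Continuous.intervalIntegrable (by fun_prop) _ _)
      ((continuous_wt m).intervalIntegrable _ _)
    intro v hv
    have h2 := wt_lip m hm le_rfl hv.1
    have h3 : wt m 0 = 1 := by simp [wt]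
    rw [h3] at h2
    linarith
  have h2 : (∫ v in (0:ℝ)..t, (1 - 2 / (m:ℝ) * v)) = t - t ^ 2 / m := by
    rw [intervalIntegral.integral_sub intervalIntegrable_const
      (Continuous.intervalIntegrable (by fun_prop) _ _), intervalIntegral.integral_const_mul,
      integral_id, intervalIntegral.integral_const, smul_eq_mul]
    ring
  linarith

/-- A6 -/
theorem Phi_zero_upper (κ : ℝ) (hκ : 0 < κ) : ∃ m₀ : ℕ, ∀ m ≥ m₀, ∀ a, Prof a → κ ≤ mass a →
    ∃ c > 0, ∃ δ > 0, ∀ t ∈ Icc 0 δ, Phi m a 0 t ≤ -(c * t ^ 2) := by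
  have hpi := Real.pi_pos
  have hch : (0:ℝ) < Real.cosh 20 + 1 := by have := Real.cosh_pos 20; linarith
  set c₀ : ℝ := Real.exp (-20) / (4 * Real.pi * (Real.cosh 20 + 1)) with hc₀
  have hc₀p : 0 < c₀ := by rw [hc₀]; positivity
  obtain ⟨n, hn⟩ := exists_nat_gt (10 / (c₀ * κ / 4))
  refine ⟨n + 1, fun m hm a ha hmass => ⟨c₀ * κ / 4, by positivity, min (κ / 2) 10, by positivity,
    fun t ht => ?_⟩⟩
  have hm1 : 1 ≤ m := by omega
  have hm' : (0:ℝ) < m := by exact_mod_cast hm1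
  have hmn : (n:ℝ) ≤ m := by exact_mod_cast (by omega : n ≤ m)
  have ht0 : 0 ≤ t := ht.1
  have htκ : t ≤ κ / 2 := ht.2.trans (min_le_left _ _)
  have ht10 : t ≤ 10 := ht.2.trans (min_le_right _ _)
  -- the integral
  have hI := intble_PhiI ha m 0 t
  have hsin := fun b c => intble_sin ha b c
  have h1 : Real.exp (-20) / (Real.cosh 20 + 1) * t ^ 2 * (κ / 2) ≤
      ∫ τ in (0:ℝ)..10, wt m τ * (LL (a τ) 0 (t - τ) - LL (a τ) 0 τ + t * GG (a τ) 0 τ) := by
    rw [← intervalIntegral.integral_add_adjacent_intervals (hI 0 t) (hI t 10)]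
    have h2 : 0 ≤ ∫ τ in (0:ℝ)..t, wt m τ * (LL (a τ) 0 (t - τ) - LL (a τ) 0 τ +
        t * GG (a τ) 0 τ) := by
      have h3 : (∫ τ in (0:ℝ)..t, (0:ℝ)) ≤ ∫ τ in (0:ℝ)..t, wt m τ * (LL (a τ) 0 (t - τ) -
          LL (a τ) 0 τ + t * GG (a τ) 0 τ) := by
        apply intervalIntegral.integral_mono_ae_restrict ht0 (by simp) (hI 0 t)
        filter_upwards [ae_ne_restrict t (Icc 0 t), ae_ne_restrict 0 (Icc 0 t),
          ae_restrict_mem measurableSet_Icc] with τ h1 h2 h3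
        have h4 := bracket_nonneg ⟨ha.nonneg τ, ha.le_pi τ⟩ ht0 ht10
          (lt_of_le_of_ne h3.1 (Ne.symm h2)) (h3.2.trans ht10) h1
        exact mul_nonneg (wt_pos m τ).le h4
      simpa using h3
    have h4 : Real.exp (-20) / (Real.cosh 20 + 1) * t ^ 2 * (κ / 2) ≤
        ∫ τ in t..10, wt m τ * (LL (a τ) 0 (t - τ) - LL (a τ) 0 τ + t * GG (a τ) 0 τ) := by
      have h5 : κ / 2 ≤ ∫ τ in t..10, Real.sin (a τ) := by
        have h6 := intervalIntegral.integral_add_adjacent_intervals (hsin 0 t) (hsin t 10)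
        have h7 : (∫ τ in (0:ℝ)..t, Real.sin (a τ)) ≤ ∫ τ in (0:ℝ)..t, (1:ℝ) :=
          intervalIntegral.integral_mono_on ht0 (hsin 0 t) intervalIntegrable_const
            (fun τ _ => Real.sin_le_one _)
        rw [intervalIntegral.integral_const, smul_eq_mul] at h7
        unfold mass at hmass
        linarith
      have h8 : Real.exp (-20) / (Real.cosh 20 + 1) * t ^ 2 * (κ / 2) ≤
          ∫ τ in t..10, Real.exp (-20) / (Real.cosh 20 + 1) * t ^ 2 * Real.sin (a τ) := by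
        rw [intervalIntegral.integral_const_mul]
        exact mul_le_mul_of_nonneg_left h5 (by positivity)
      refine h8.trans ?_
      apply integral_mono_ne ht10 ((hsin t 10).const_mul _) (hI t 10) t
      intro τ hτ hne
      have hτt : t < τ := lt_of_le_of_ne hτ.1 (Ne.symm hne)
      have hτ0 : 0 < τ := lt_of_le_of_lt ht0 hτt
      have h9 := bracket_lower ⟨ha.nonneg τ, ha.le_pi τ⟩ ht0 ht10 hτ0 hτ.2 hne
      have h10 : |t - τ| = τ - t := by rw [abs_of_neg (by linarith)]; ring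
      rw [h10] at h9
      have h11 : Real.sin (a τ) / (Real.cosh 20 + 1) * (τ - t - τ) ^ 2 +
          (τ - t - τ + t) * GG (a τ) 0 τ = Real.sin (a τ) / (Real.cosh 20 + 1) * t ^ 2 := by ring
      rw [h11] at h9
      have h12 := wt_ge hm1 hτ.2
      have h13 := sin_a_nonneg ha τ
      calc Real.exp (-20) / (Real.cosh 20 + 1) * t ^ 2 * Real.sin (a τ)
          = Real.exp (-20) * (Real.sin (a τ) / (Real.cosh 20 + 1) * t ^ 2) := by ring
        _ ≤ wt m τ * (Real.sin (a τ) / (Real.cosh 20 + 1) * t ^ 2) :=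
            mul_le_mul_of_nonneg_right h12 (by positivity)
        _ ≤ _ := mul_le_mul_of_nonneg_left h9 (wt_pos m τ).le
    linarith
  have hs := sig_le m ha
  have hs0 := sig_nonneg m ha
  have hth := sub_th_le m hm1 ht0
  have h2 : sig m a * (t - th m t) ≤ 10 * (t ^ 2 / m) := by
    calc sig m a * (t - th m t) ≤ sig m a * (t ^ 2 / m) := mul_le_mul_of_nonneg_left hth hs0
      _ ≤ _ := mul_le_mul_of_nonneg_right hs (by positivity)
  have h3 : 10 * (t ^ 2 / (m:ℝ)) ≤ c₀ * κ / 4 * t ^ 2 := by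
    have h4 : 10 / (m:ℝ) ≤ c₀ * κ / 4 := by
      rw [div_le_iff₀ hm']
      rw [div_lt_iff₀ (by positivity)] at hn
      have : c₀ * κ / 4 * n ≤ c₀ * κ / 4 * m := mul_le_mul_of_nonneg_left hmn (by positivity)
      linarith
    calc 10 * (t ^ 2 / (m:ℝ)) = 10 / m * t ^ 2 := by ring
      _ ≤ _ := mul_le_mul_of_nonneg_right h4 (sq_nonneg t)
  have h4 : PhiI m a 0 t ≤ -(c₀ * κ / 2 * t ^ 2) := by
    unfold PhiI
    have h5 := mul_le_mul_of_nonneg_left h1 (show (0:ℝ) ≤ 1 / (4 * Real.pi) by positivity)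
    have h6 : 1 / (4 * Real.pi) * (Real.exp (-20) / (Real.cosh 20 + 1) * t ^ 2 * (κ / 2)) =
        c₀ * κ / 2 * t ^ 2 := by
      rw [hc₀]; field_simp
    rw [h6] at h5
    linarith
  unfold Phi
  linarith

/-- A7 -/
theorem Phi_X0_lower (m : ℕ) (hm : 1 ≤ m) (a : ℝ → ℝ) (ha : Prof a) : ∃ c > 0, ∀ X, 0 < X → X ≤ 1 →
    c * X ^ 2 * ∫ τ in X..1, Real.sin (a τ) / (τ ^ 2 + X ^ 2 + (a τ) ^ 2) ≤ Phi m a X 0 := by
  have hpi := Real.pi_pos
  refine ⟨Real.exp (-20) / (16 * Real.pi), by positivity, fun X hX hX1 => ?_⟩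
  have h0 : Phi m a 0 0 = 0 := by
    unfold Phi PhiI th
    have : (∫ τ in (0:ℝ)..10, wt m τ * (LL (a τ) 0 (0 - τ) - LL (a τ) 0 τ + 0 * GG (a τ) 0 τ)) = 0 := by
      have h1 : (∫ τ in (0:ℝ)..10, wt m τ * (LL (a τ) 0 (0 - τ) - LL (a τ) 0 τ +
          0 * GG (a τ) 0 τ)) = ∫ τ in (0:ℝ)..10, (0:ℝ) := by
        refine intervalIntegral.integral_congr ?_
        intro τ _
        simp only
        rw [zero_sub, LL_neg]
        ring
      rw [h1]; simp
    rw [this]
    simp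
  have h1 := Phi_X_sub m ha 0 X 0
  rw [h0, sub_zero] at h1
  rw [h1]
  have hX_pi : X ≤ Real.pi := by linarith [Real.pi_gt_three]
  have hdiff := fun b c => intble_wt_mul m (b := b) (c := c) ((intble_LL ha 0 0 b c).sub
    (intble_LL ha X 0 b c))
  have hnn : ∀ τ, τ ≠ 0 → 0 ≤ LL (a τ) 0 (0 - τ) - LL (a τ) X (0 - τ) := by
    intro τ hτ
    rw [LL_X_sub (by simpa using hτ)]
    apply intervalIntegral.integral_nonneg hX.le
    intro y hy
    exact Lam_diff_nonneg (by simpa using hτ) ⟨hy.1, hy.2.trans hX_pi⟩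
      ⟨ha.nonneg τ, ha.le_pi τ⟩
  have hden : ∀ τ : ℝ, 0 < τ ^ 2 + X ^ 2 + (a τ) ^ 2 := by
    intro τ
    have : 0 < X ^ 2 := by positivity
    have := sq_nonneg τ
    have := sq_nonneg (a τ)
    linarith
  have hint : IntervalIntegrable (fun τ => Real.sin (a τ) / (τ ^ 2 + X ^ 2 + (a τ) ^ 2)) volume X 1 := by
    refine intble_of_bdd ?_ (1 / X ^ 2) X 1 ?_
    · have := ha.measurable
      exact (Real.measurable_sin.comp this).div (((measurable_id.pow_const 2).add_const _).add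
        (this.pow_const 2))
    · intro τ _
      rw [abs_div, abs_of_pos (hden τ)]
      have h3 := Real.abs_sin_le_one (a τ)
      have h4 : X ^ 2 ≤ τ ^ 2 + X ^ 2 + (a τ) ^ 2 := by
        have := sq_nonneg τ
        have := sq_nonneg (a τ)
        linarith
      exact div_le_div₀ zero_le_one h3 (by positivity) h4
  -- pointwise bound
  have hpt : ∀ τ ∈ Icc X 1, X ^ 2 / 4 * (Real.sin (a τ) / (τ ^ 2 + X ^ 2 + (a τ) ^ 2)) ≤
      LL (a τ) 0 (0 - τ) - LL (a τ) X (0 - τ) := by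
    intro τ hτ
    have hτ0 : 0 < τ := hX.trans_le hτ.1
    have hne : (0 - τ) ≠ 0 := by simpa using hτ0.ne'
    rw [LL_X_sub hne]
    have hc := fun b c => (continuous_Lam_diff hne (a τ)).intervalIntegrable (μ := volume) b c
    rw [← intervalIntegral.integral_add_adjacent_intervals (hc 0 (X/2)) (hc (X/2) X)]
    have h2 : 0 ≤ ∫ y in (0:ℝ)..X/2, (Lam (0 - τ) (y + a τ) - Lam (0 - τ) (y - a τ)) := by
      apply intervalIntegral.integral_nonneg (by positivity)
      intro y hy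
      exact Lam_diff_nonneg hne ⟨hy.1, by linarith [hy.2]⟩ ⟨ha.nonneg τ, ha.le_pi τ⟩
    have h3 : X ^ 2 / 4 * (Real.sin (a τ) / (τ ^ 2 + X ^ 2 + (a τ) ^ 2)) ≤
        ∫ y in (X/2)..X, (Lam (0 - τ) (y + a τ) - Lam (0 - τ) (y - a τ)) := by
      have e : X ^ 2 / 4 * (Real.sin (a τ) / (τ ^ 2 + X ^ 2 + (a τ) ^ 2)) =
          ∫ y in (X/2)..X, X / 2 * (Real.sin (a τ) / (τ ^ 2 + X ^ 2 + (a τ) ^ 2)) := by
        rw [intervalIntegral.integral_const, smul_eq_mul]; ring
      rw [e]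
      apply intervalIntegral.integral_mono_on (by linarith) intervalIntegrable_const (hc _ _)
      intro y hy
      refine le_trans ?_ (Lam_diff_lower hne y (a τ))
      have hs := sin_a_nonneg ha τ
      have hy0 : 0 ≤ y := by linarith [hy.1]
      have hsy : X / 4 ≤ Real.sin y := by
        have h5 := Real.mul_le_sin hy0 (by linarith [hy.2, Real.pi_gt_three])
        have h6 : X / 4 ≤ 2 / Real.pi * y := by
          rw [div_mul_eq_mul_div, le_div_iff₀ hpi]
          nlinarith [Real.pi_lt_d2, hy.1]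
        linarith
      have hd : Real.cosh (0 - τ) - Real.cos (y + a τ) ≤ τ ^ 2 + X ^ 2 + (a τ) ^ 2 := by
        have h5 : Real.cosh (0 - τ) ≤ 1 + τ ^ 2 := by
          rw [zero_sub, Real.cosh_neg]
          have h7 : Real.cosh τ ≤ Real.exp (τ ^ 2 / 2) := Real.cosh_le_exp_half_sq τ
          have h8 : Real.exp (τ ^ 2 / 2) ≤ 1 + τ ^ 2 := by
            have h9 : τ ^ 2 / 2 ≤ 1 / 2 := by nlinarith [hτ.2]
            have h10 : 0 ≤ τ ^ 2 / 2 := by positivity
            have h11 := Real.exp_bound_div_one_sub_of_interval h10 (by linarith)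
            refine h11.trans ?_
            rw [div_le_iff₀ (by linarith)]
            nlinarith
          linarith
        have h6 := Real.one_sub_sq_div_two_le_cos (x := y + a τ)
        have h7 : y ^ 2 ≤ X ^ 2 := by nlinarith [hy.2]
        nlinarith [sq_nonneg (y - a τ)]
      have hdp := den_pos hne (y + a τ)
      have h9 : X / 2 * (Real.sin (a τ) / (τ ^ 2 + X ^ 2 + (a τ) ^ 2)) =
          2 * (X / 4) * Real.sin (a τ) / (τ ^ 2 + X ^ 2 + (a τ) ^ 2) := by ring
      rw [h9]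
      apply div_le_div₀
      · have : 0 ≤ Real.sin y := by linarith
        positivity
      · apply mul_le_mul_of_nonneg_right _ hs
        linarith
      · exact hdp
      · exact hd
    linarith
  have hA : Real.exp (-20) * (X ^ 2 / 4) * (∫ τ in X..1, Real.sin (a τ) /
      (τ ^ 2 + X ^ 2 + (a τ) ^ 2)) ≤
      ∫ τ in (0:ℝ)..10, wt m τ * (LL (a τ) 0 (0 - τ) - LL (a τ) X (0 - τ)) := by
    rw [← intervalIntegral.integral_add_adjacent_intervals (hdiff 0 X) (hdiff X 10),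
      ← intervalIntegral.integral_add_adjacent_intervals (hdiff X 1) (hdiff 1 10)]
    have k1 : 0 ≤ ∫ τ in (0:ℝ)..X, wt m τ * (LL (a τ) 0 (0 - τ) - LL (a τ) X (0 - τ)) := by
      have : (∫ τ in (0:ℝ)..X, (0:ℝ)) ≤ ∫ τ in (0:ℝ)..X, wt m τ * (LL (a τ) 0 (0 - τ) -
          LL (a τ) X (0 - τ)) := by
        apply integral_mono_ne hX.le (by simp) (hdiff 0 X) 0
        intro τ _ hne
        exact mul_nonneg (wt_pos m τ).le (hnn τ hne)
      simpa using this
    have k2 : 0 ≤ ∫ τ in (1:ℝ)..10, wt m τ * (LL (a τ) 0 (0 - τ) - LL (a τ) X (0 - τ)) := by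
      apply intervalIntegral.integral_nonneg (by norm_num)
      intro τ hτ
      exact mul_nonneg (wt_pos m τ).le (hnn τ (by linarith [hτ.1] : τ ≠ 0))
    have k3 : Real.exp (-20) * (X ^ 2 / 4) * (∫ τ in X..1, Real.sin (a τ) /
        (τ ^ 2 + X ^ 2 + (a τ) ^ 2)) ≤
        ∫ τ in X..1, wt m τ * (LL (a τ) 0 (0 - τ) - LL (a τ) X (0 - τ)) := by
      rw [← intervalIntegral.integral_const_mul]
      apply intervalIntegral.integral_mono_on hX1 (hint.const_mul _) (hdiff X 1)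
      intro τ hτ
      have h5 := hpt τ hτ
      have h6 := wt_ge hm (show τ ≤ 10 by linarith [hτ.2])
      have h7 : 0 ≤ X ^ 2 / 4 * (Real.sin (a τ) / (τ ^ 2 + X ^ 2 + (a τ) ^ 2)) := by
        have := sin_a_nonneg ha τ
        have := hden τ
        positivity
      calc Real.exp (-20) * (X ^ 2 / 4) * (Real.sin (a τ) / (τ ^ 2 + X ^ 2 + (a τ) ^ 2))
          = Real.exp (-20) * (X ^ 2 / 4 * (Real.sin (a τ) / (τ ^ 2 + X ^ 2 + (a τ) ^ 2))) := by ring
        _ ≤ wt m τ * (X ^ 2 / 4 * (Real.sin (a τ) / (τ ^ 2 + X ^ 2 + (a τ) ^ 2))) :=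
            mul_le_mul_of_nonneg_right h6 h7
        _ ≤ _ := mul_le_mul_of_nonneg_left h5 (wt_pos m τ).le
    linarith
  have hB := mul_le_mul_of_nonneg_left hA (show (0:ℝ) ≤ 1 / (4 * Real.pi) by positivity)
  refine le_trans (le_of_eq ?_) hB
  field_simp
  ring

end Pool.Agent.Helper87.VS
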