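import Pool.Agent.Helper90.VS.Defs
import Pool.Agent.Helper87.VS.Polar

/-!
# MP_539ca6_an, R3a: the logarithmic potential of the unit disc
-/

open MeasureTheory Set

namespace Pool.Agent.Helper87.VS

open Pool.Agent.Helper90.VS

noncomputable section

open scoped Real

theorem integral_log_circle (x : ℂ) (r : ℝ) (hr : 0 < r) :
    ∫ θ in (-π)..π, Real.log ‖x - r * Complex.exp (θ * Complex.I)‖ =
      2 * π * (Real.log r + Real.posLog (r⁻¹ * ‖x‖)) := by
  have h1 := circleAverage_log_norm_sub_const_eq_log_radius_add_posLog (a := x) (c := 0) (R := r)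
    hr.ne'
  rw [Real.circleAverage_def, smul_eq_mul, zero_sub, norm_neg] at h1
  have hper : Function.Periodic (fun θ : ℝ => Real.log ‖x - r * Complex.exp (θ * Complex.I)‖)
      (2 * π) := by
    intro θ
    simp only
    congr 4
    push_cast
    rw [add_mul, Complex.exp_add, Complex.exp_two_pi_mul_I, mul_one]
  have h2 := hper.intervalIntegral_add_eq (-π) 0
  have e1 : -π + 2 * π = π := by ring
  rw [e1, zero_add] at h2
  rw [h2]
  have h3 : (∫ θ in (0:ℝ)..2 * π, Real.log ‖circleMap 0 r θ - x‖) =
      ∫ θ in (0:ℝ)..2 * π, Real.log ‖x - r * Complex.exp (θ * Complex.I)‖ := by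
    refine intervalIntegral.integral_congr ?_
    intro θ _
    simp only
    rw [norm_sub_rev, circleMap_zero]
  rw [← h3, ← h1]
  field_simp

theorem integral_radial (ρ : ℝ) (h0 : 0 ≤ ρ) (h1 : ρ ≤ 1) :
    ∫ r in (0:ℝ)..1, r * (Real.log r + Real.posLog (r⁻¹ * ρ)) = (ρ ^ 2 - 1) / 4 := by
  have i1 : IntervalIntegrable (fun r : ℝ => r * Real.log r) volume ρ 1 :=
    Real.continuous_mul_log.intervalIntegrable _ _
  have i2 : IntervalIntegrable (fun r : ℝ => r * Real.log ρ) volume 0 ρ :=
    (continuous_id.mul continuous_const).intervalIntegrable _ _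
  have e1 : ∀ r ∈ Ioc 0 ρ, r * (Real.log r + Real.posLog (r⁻¹ * ρ)) = r * Real.log ρ := by
    intro r hr
    have hr0 : 0 < r := hr.1
    have hρ : 0 < ρ := lt_of_lt_of_le hr0 hr.2
    have h2 : 1 ≤ r⁻¹ * ρ := by
      rw [inv_mul_eq_div, one_le_div hr0]; exact hr.2
    rw [Real.posLog_eq_log (by rw [abs_of_pos (by positivity)]; exact h2),
      Real.log_mul (by positivity) hρ.ne', Real.log_inv]
    ring
  have e2 : ∀ r ∈ Ioc ρ 1, r * (Real.log r + Real.posLog (r⁻¹ * ρ)) = r * Real.log r := by
    intro r hr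
    have hr0 : 0 < r := lt_of_le_of_lt h0 hr.1
    have h2 : r⁻¹ * ρ ≤ 1 := by
      rw [inv_mul_eq_div, div_le_one hr0]; exact hr.1.le
    rw [(Real.posLog_eq_zero_iff _).2 (by rw [abs_of_nonneg (by positivity)]; exact h2), add_zero]
  have j1 : IntervalIntegrable (fun r : ℝ => r * (Real.log r + Real.posLog (r⁻¹ * ρ)))
      volume 0 ρ := by
    rw [intervalIntegrable_iff_integrableOn_Ioc_of_le h0] at i2 ⊢
    exact i2.congr_fun (fun r hr => (e1 r hr).symm) measurableSet_Ioc
  have j2 : IntervalIntegrable (fun r : ℝ => r * (Real.log r + Real.posLog (r⁻¹ * ρ)))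
      volume ρ 1 := by
    rw [intervalIntegrable_iff_integrableOn_Ioc_of_le h1] at i1 ⊢
    exact i1.congr_fun (fun r hr => (e2 r hr).symm) measurableSet_Ioc
  rw [← intervalIntegral.integral_add_adjacent_intervals j1 j2]
  have k1 : (∫ r in (0:ℝ)..ρ, r * (Real.log r + Real.posLog (r⁻¹ * ρ))) =
      ρ ^ 2 / 2 * Real.log ρ := by
    rw [intervalIntegral.integral_congr_ae (g := fun r => r * Real.log ρ)
      (by
        rw [uIoc_of_le h0]
        exact Filter.Eventually.of_forall e1), intervalIntegral.integral_mul_const, integral_id]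
    ring
  have k2 : (∫ r in ρ..1, r * (Real.log r + Real.posLog (r⁻¹ * ρ))) =
      -(ρ ^ 2 / 2 * Real.log ρ) + (ρ ^ 2 - 1) / 4 := by
    rw [intervalIntegral.integral_congr_ae (g := fun r => r * Real.log r)
      (by
        rw [uIoc_of_le h1]
        exact Filter.Eventually.of_forall e2)]
    rw [intervalIntegral.integral_eq_sub_of_hasDerivAt_of_le h1
      (f := fun r => r * (r * Real.log r) / 2 - r ^ 2 / 4)]
    · simp only [Real.log_one]; ring
    · have := Real.continuous_mul_log
      fun_prop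
    · intro r hr
      have hr0 : 0 < r := lt_of_le_of_lt h0 hr.1
      have h5 : HasDerivAt (fun y : ℝ => y * (y * Real.log y) / 2 - y ^ 2 / 4)
          ((1 * (r * Real.log r) + r * (1 * Real.log r + r * r⁻¹)) / 2 -
            ((2:ℕ) : ℝ) * r ^ (2 - 1) / 4) r :=
        (((hasDerivAt_id' r).mul ((hasDerivAt_id' r).mul (Real.hasDerivAt_log hr0.ne'))).div_const
          2).sub ((hasDerivAt_pow 2 r).div_const 4)
      have h6 : (1 * (r * Real.log r) + r * (1 * Real.log r + r * r⁻¹)) / 2 -
            ((2:ℕ) : ℝ) * r ^ (2 - 1) / 4 = r * Real.log r := by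
        rw [mul_inv_cancel₀ hr0.ne']
        push_cast
        ring
      rw [h6] at h5
      exact h5
    · exact i1
  rw [k1, k2]
  ring

/-- R3a: potential of the unit disc -/
theorem pot_ball (x : ℂ) (hx : ‖x‖ ≤ 1) : pot (Metric.ball 0 1) x = (‖x‖ ^ 2 - 1) / 4 := by
  unfold pot
  have hint : Integrable ((Metric.ball (0:ℂ) 1).indicator (fun y => Real.log ‖x - y‖)) :=
    (integrable_indicator_iff measurableSet_ball).2 (integrableOn_log_norm_sub x
      Metric.isBounded_ball)
  rw [← integral_indicator measurableSet_ball, integral_polar hint]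
  have h1 : ∀ r ∈ Ioi (0:ℝ), r * ∫ θ in (-π)..π,
      (Metric.ball (0:ℂ) 1).indicator (fun y => Real.log ‖x - y‖)
        (r * Complex.exp (θ * Complex.I)) =
      (Ioo (0:ℝ) 1).indicator
        (fun r => 2 * π * (r * (Real.log r + Real.posLog (r⁻¹ * ‖x‖)))) r := by
    intro r hr
    have hr0 : (0:ℝ) < r := hr
    have hn : ∀ θ : ℝ, ‖(r:ℂ) * Complex.exp (θ * Complex.I)‖ = r := by
      intro θ
      rw [norm_mul, Complex.norm_exp_ofReal_mul_I, mul_one, Complex.norm_real, Real.norm_eq_abs,
        abs_of_pos hr0]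
    by_cases h : r < 1
    · rw [indicator_of_mem (show r ∈ Ioo (0:ℝ) 1 from ⟨hr0, h⟩)]
      have h2 : (∫ θ in (-π)..π, (Metric.ball (0:ℂ) 1).indicator (fun y => Real.log ‖x - y‖)
        (r * Complex.exp (θ * Complex.I))) =
          ∫ θ in (-π)..π, Real.log ‖x - r * Complex.exp (θ * Complex.I)‖ := by
        refine intervalIntegral.integral_congr ?_
        intro θ _
        simp only
        rw [indicator_of_mem]
        rw [Metric.mem_ball, dist_zero_right, hn]
        exact h
      rw [h2, integral_log_circle x r hr0]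
      ring
    · rw [indicator_of_notMem (fun hh => h hh.2)]
      have h2 : (∫ θ in (-π)..π, (Metric.ball (0:ℂ) 1).indicator (fun y => Real.log ‖x - y‖)
        (r * Complex.exp (θ * Complex.I))) = ∫ θ in (-π)..π, (0:ℝ) := by
        refine intervalIntegral.integral_congr ?_
        intro θ _
        simp only
        rw [indicator_of_notMem]
        rw [Metric.mem_ball, dist_zero_right, hn]
        exact h
      rw [h2]
      simp
  rw [setIntegral_congr_fun measurableSet_Ioi h1, setIntegral_indicator measurableSet_Ioo]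
  have h3 : Ioi (0:ℝ) ∩ Ioo 0 1 = Ioo 0 1 := by
    ext y; simp
  rw [h3, ← integral_Ioc_eq_integral_Ioo, ← intervalIntegral.integral_of_le zero_le_one,
    intervalIntegral.integral_const_mul, integral_radial ‖x‖ (norm_nonneg x) hx]
  have := Real.pi_pos
  field_simp

end

end Pool.Agent.Helper87.VS
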